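import Pool.Agent.Lib.MP_34f7ca_lc.Defs

/-!
# MP_34f7ca_lc, module ADD

Additivity of the meagre ideal for indexed families.
-/

set_option autoImplicit false

namespace Pool.Agent.Lib.MP_34f7ca_lc

open Pool.Agent.GammaZero Pool.Agent.Mart Cardinal

theorem addMeagre_aleph_one : AddMeagre (ℵ₁) := by
  intro 𝒜 h𝒜 hcard
  have hc : 𝒜.Countable := by
    rw [← Cardinal.le_aleph0_iff_set_countable, ← Cardinal.lt_aleph_one_iff]
    exact hcard
  have : Countable 𝒜 := hc.to_subtype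
  rw [Set.sUnion_eq_iUnion]
  exact isMeagre_iUnion fun A => h𝒜 _ A.2

theorem AddMeagre.iUnion {κ : Cardinal.{0}} (hκ : AddMeagre κ) {ι : Type}
    (hι : #ι < κ ∨ #ι ≤ ℵ₀) (A : ι → Set (ℕ → ℕ)) (hA : ∀ i, IsMeagre (A i)) :
    IsMeagre (⋃ i, A i) := by
  rcases hι with h | h
  · rw [← Set.sUnion_range]
    apply hκ
    · rintro _ ⟨i, rfl⟩
      exact hA i
    · exact lt_of_le_of_lt Cardinal.mk_range_le h
  · have : Countable ι := Cardinal.mk_le_aleph0_iff.1 h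
    exact isMeagre_iUnion hA

private def prodHomeo : (ℕ → ℕ) × (ℕ → ℕ) ≃ₜ (ℕ → ℕ) :=
  (Homeomorph.sumArrowHomeomorphProdArrow (X := ℕ)).symm.trans
    (Homeomorph.piCongrLeft (Y := fun _ => ℕ) Equiv.natSumNatEquivNat)

theorem AddMeagre.iUnion_prod {κ : Cardinal.{0}} (hκ : AddMeagre κ) {ι : Type}
    (hι : #ι < κ ∨ #ι ≤ ℵ₀) (A : ι → Set ((ℕ → ℕ) × (ℕ → ℕ))) (hA : ∀ i, IsMeagre (A i)) :
    IsMeagre (⋃ i, A i) := by
  have h1 : ∀ i, IsMeagre (prodHomeo.symm ⁻¹' (A i)) := fun i =>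
    (hA i).preimage_of_isOpenMap prodHomeo.symm.continuous prodHomeo.symm.isOpenMap
  have h2 : IsMeagre (prodHomeo ⁻¹' (⋃ i, prodHomeo.symm ⁻¹' (A i))) :=
    (hκ.iUnion hι _ h1).preimage_of_isOpenMap prodHomeo.continuous prodHomeo.isOpenMap
  have h3 : prodHomeo ⁻¹' (⋃ i, prodHomeo.symm ⁻¹' (A i)) = ⋃ i, A i := by
    ext x
    simp
  rwa [h3] at h2

end Pool.Agent.Lib.MP_34f7ca_lc
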