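import Pool.Agent.Lib.MP_34f7ca_lc.TOP

/-! # MP_34f7ca_lc, module COL: columns and amalgams -/

set_option autoImplicit false

namespace Pool.Agent.Lib.MP_34f7ca_lc

open Pool.Agent.GammaZero Pool.Agent.Mart Cardinal

theorem amal_pair (old : Set ℕ) (c : ℕ → ℕ → Bool) (S : Set ℕ) (x : ℕ → ℕ) {n : ℕ}
    (hn : n ∈ S) (k : ℕ) : amal old c S x (Nat.pair n k) = col old c x n k := by
  unfold amal
  have h1 : (Nat.unpair (Nat.pair n k)).1 = n := by rw [Nat.unpair_pair]
  have h2 : (Nat.unpair (Nat.pair n k)).2 = k := by rw [Nat.unpair_pair]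
  rw [h1, h2, if_pos hn]

theorem tr_col_amal (old : Set ℕ) (c : ℕ → ℕ → Bool) (S : Set ℕ) (x : ℕ → ℕ) {n : ℕ}
    (hn : n ∈ S) : TR (col old c x n) (amal old c S x) := by
  rw [tr_iff_ci]
  refine (ci_orc_comp (TR.refl (amal old c S x)) (CI.npair (CI.const n)
    (CI.of_computable Computable.id))).congr fun k => ?_
  rw [amal_pair old c S x hn]
  rfl

/-- a finite table is computable -/
private theorem ci_table (O : Set (ℕ →. ℕ)) (l : List ℕ) : CI O (fun k : ℕ => l.getD k 0) :=
  CI.of_computable ((Primrec.list_getD 0).comp (Primrec.const l) Primrec.id).to_comp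

theorem tr_old_col {old : Set ℕ} (c : ℕ → ℕ → Bool) (x : ℕ → ℕ) {n : ℕ} (hn : n ∈ old) :
    TR (c n) (col old c x n) := by
  rw [tr_iff_ci]
  set L := (dl (x (Nat.pair n 0))).length with hL
  refine (CI.ite (DI.lt (CI.of_computable Computable.id) (CI.const L))
    (ci_table _ ((List.range L).map fun k => (c n k).toNat))
    (ci_orc_comp (TR.refl (col old c x n)) (CI.of_computable Computable.id))).congr fun k => ?_
  simp only [id]
  by_cases hk : k < L
  · rw [if_pos hk, List.getD_eq_getElem?_getD]
    simp [hk]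
  · rw [if_neg hk]
    unfold col
    rw [if_pos hn]
    have h1 : (dl (x (Nat.pair n 0)))[k]? = none := List.getElem?_eq_none (not_lt.1 hk)
    rw [h1]
    rfl

theorem di_of_compSet {O : Set (ℕ →. ℕ)} {S : Set ℕ} (hS : CompSet S) :
    DI O (fun n : ℕ => n ∈ S) :=
  DI_subst hS fun g hg => absurd hg (Set.notMem_empty g)

theorem amal_mono (old : Set ℕ) (c : ℕ → ℕ → Bool) {S S' : Set ℕ} (x : ℕ → ℕ) (hS : CompSet S)
    (h : S ⊆ S') : TR (amal old c S x) (amal old c S' x) := by
  classical
  rw [tr_iff_ci]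
  have hd : DI {orc (amal old c S' x)} (fun m : ℕ => m.unpair.1 ∈ S) :=
    (di_of_compSet hS).comp_computable (Computable.fst.comp Computable.unpair)
  refine (CI.ite hd (ci_orc_comp (TR.refl (amal old c S' x))
    (CI.of_computable Computable.id)) (CI.const 0)).congr fun m => ?_
  simp only [id]
  by_cases hm : m.unpair.1 ∈ S
  · rw [if_pos hm]
    unfold amal
    rw [if_pos hm, if_pos (h hm)]
  · rw [if_neg hm]
    unfold amal
    rw [if_neg hm]
    rfl

theorem CompSet.empty : CompSet (∅ : Set ℕ) :=
  (DI.eq (CI.const (α := ℕ) 0) (CI.const 1)).of_iff fun n => by simp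

theorem CompSet.union {S S' : Set ℕ} (hS : CompSet S) (hS' : CompSet S') :
    CompSet (S ∪ S') :=
  (DI.or hS hS').of_iff fun _ => Iff.rfl

theorem continuous_col_apply (old : Set ℕ) (c : ℕ → ℕ → Bool) (n k : ℕ) :
    Continuous fun x : ℕ → ℕ => col old c x n k := by
  by_cases hn : n ∈ old
  · have h1 : (fun x : ℕ → ℕ => col old c x n k) =
        (fun a : ℕ => ((dl a)[k]?).getD (c n k)) ∘ fun x : ℕ → ℕ => x (Nat.pair n 0) := by
      funext x
      unfold col
      rw [if_pos hn]
      rfl
    rw [h1]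
    exact continuous_of_discreteTopology.comp (continuous_apply _)
  · have h1 : (fun x : ℕ → ℕ => col old c x n k) =
        (fun a : ℕ => decide (a % 2 = 1)) ∘ fun x : ℕ → ℕ => x (Nat.pair n k) := by
      funext x
      unfold col
      rw [if_neg hn]
      rfl
    rw [h1]
    exact continuous_of_discreteTopology.comp (continuous_apply _)

theorem continuous_col (old : Set ℕ) (c : ℕ → ℕ → Bool) (n : ℕ) :
    Continuous fun x : ℕ → ℕ => col old c x n :=
  continuous_pi fun k => continuous_col_apply old c n k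

/-- the map `x ↦ b ⊕ amal x` is continuous -/
theorem continuous_bjoin_amal (old : Set ℕ) (c : ℕ → ℕ → Bool) (S : Set ℕ) (b : ℕ → Bool) :
    Continuous fun x : ℕ → ℕ => bjoin b (amal old c S x) := by
  refine continuous_pi fun m => ?_
  by_cases hm : m % 2 = 0
  · have h1 : (fun x : ℕ → ℕ => bjoin b (amal old c S x) m) = fun _ => b (m / 2) := by
      funext x
      unfold bjoin
      rw [if_pos hm]
    rw [h1]
    exact continuous_const
  · have h1 : (fun x : ℕ → ℕ => bjoin b (amal old c S x) m) =
        fun x : ℕ → ℕ => amal old c S x (m / 2) := by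
      funext x
      unfold bjoin
      rw [if_neg hm]
    rw [h1]
    by_cases hS : (m / 2).unpair.1 ∈ S
    · have h2 : (fun x : ℕ → ℕ => amal old c S x (m / 2)) =
          fun x : ℕ → ℕ => col old c x (m / 2).unpair.1 (m / 2).unpair.2 := by
        funext x
        unfold amal
        rw [if_pos hS]
      rw [h2]
      exact continuous_col_apply old c _ _
    · have h2 : (fun x : ℕ → ℕ => amal old c S x (m / 2)) = fun _ => false := by
        funext x
        unfold amal
        rw [if_neg hS]
      rw [h2]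
      exact continuous_const

theorem res_congr {X Y : ℕ → Bool} {e k t s : ℕ} (h : ∀ i < t, Y i = X i) (hs : s < t) :
    res Y e k s = res X e k s := by
  unfold res
  have h1 : pre Y s.unpair.1 = pre X s.unpair.1 := by
    rw [pre_eq_iff]
    intro i hi
    exact h i (lt_of_lt_of_le hi (le_trans (Nat.unpair_left_le s) hs.le))
  rw [h1]

theorem U_congr {X Y : ℕ → Bool} {e k t v : ℕ} (h : ∀ i < t, Y i = X i) (hU : U X e k t v) :
    U Y e k t v := by
  obtain ⟨s, hs, h1, h2⟩ := hU
  refine ⟨s, hs, ?_, fun s' hs' => ?_⟩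
  · rw [res_congr h hs]
    exact h1
  · rw [res_congr h (hs'.trans hs)]
    exact h2 s' hs'

/-- convergence with a given value is an open condition on the oracle -/
theorem isOpen_U (e k t v : ℕ) : IsOpen {X : ℕ → Bool | U X e k t v} := by
  rw [isOpen_iff_forall_mem_open]
  intro X hX
  exact ⟨{Y | ∀ i < t, Y i = X i}, fun Y hY => U_congr hY hX, isOpen_cyl X t, fun _ _ => rfl⟩

/-- two new columns are equal only for a nowhere dense set of pairs -/
theorem meagre_col_eq (old : Set ℕ) (c : ℕ → ℕ → Bool) {n : ℕ} (hn : n ∉ old) :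
    IsMeagre {q : (ℕ → ℕ) × (ℕ → ℕ) | col old c q.1 n = col old c q.2 n} := by
  classical
  have hcl : IsClosed {q : (ℕ → ℕ) × (ℕ → ℕ) | col old c q.1 n = col old c q.2 n} :=
    isClosed_eq ((continuous_col old c n).comp continuous_fst)
      ((continuous_col old c n).comp continuous_snd)
  refine isMeagre_of_closed hcl le_rfl ?_
  rintro ⟨x, x'⟩ hq hint
  have hV : IsOpen {y : ℕ → ℕ | (y, x') ∈
      interior {q : (ℕ → ℕ) × (ℕ → ℕ) | col old c q.1 n = col old c q.2 n}} :=
    isOpen_interior.preimage (Continuous.prodMk_left x')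
  obtain ⟨M, hM⟩ := exists_cyl hV hint
  let y : ℕ → ℕ := Function.update x (Nat.pair n M) (x (Nat.pair n M) + 1)
  have hy : ∀ i < M, y i = x i := by
    intro i hi
    have h1 : i ≠ Nat.pair n M := by
      have := Nat.right_le_pair n M
      omega
    exact Function.update_of_ne h1 _ _
  have h1 : (y, x') ∈ {q : (ℕ → ℕ) × (ℕ → ℕ) | col old c q.1 n = col old c q.2 n} :=
    interior_subset (hM y hy)
  have h2 : col old c y n = col old c x' n := h1
  have h3 : col old c x n = col old c x' n := hq
  have h4 : col old c y n M = col old c x n M := by rw [h2, h3]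
  unfold col at h4
  rw [if_neg hn, if_neg hn] at h4
  have h5 : y (Nat.pair n M) = x (Nat.pair n M) + 1 := Function.update_self _ _ _
  rw [h5] at h4
  rcases Nat.mod_two_eq_zero_or_one (x (Nat.pair n M)) with h6 | h6
  · have h7 : (x (Nat.pair n M) + 1) % 2 = 1 := by omega
    simp [h6, h7] at h4
  · have h7 : (x (Nat.pair n M) + 1) % 2 = 0 := by omega
    simp [h6, h7] at h4

end Pool.Agent.Lib.MP_34f7ca_lc
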