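import Pool.Agent.Lib.MP_34f7ca_lc.Defs

/-! # MP_34f7ca_lc, module RANK: rank functions from families of countable sets -/

set_option autoImplicit false

namespace Pool.Agent.Lib.MP_34f7ca_lc

open Cardinal

/-- the well-ordered index set of type `ord |P|` -/
abbrev Wt (P : Type) : Type := (#P).ord.ToType

/-- an enumeration of `P` by `Wt P` -/
noncomputable def enumP (P : Type) : Wt P ≃ P :=
  (Cardinal.eq.1 (by simp : #(Wt P) = #P)).some

theorem mk_Iio_Wt (P : Type) (w : Wt P) : #(Set.Iio w) < #P :=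
  Cardinal.mk_Iio_toType_ord_lt w

/-- a rank function from a family of countable sets `C p ∋ p` -/
theorem exists_rank {P : Type} (C : P → Set P) (hself : ∀ p, p ∈ C p)
    (hC : ∀ p, (C p).Countable) :
    ∃ ρ : P → Wt P, (∀ y, y ∈ C (enumP P (ρ y))) ∧
      (∀ y w, y ∈ C (enumP P w) → ρ y ≤ w) ∧
      (∀ w, {p | ρ p = w}.Countable) ∧
      ∀ w, ∀ μ : Cardinal.{0}, ℵ₀ < μ → #P ≤ μ → #{p | ρ p < w} < μ := by
  classical
  have hne : ∀ y : P, {w : Wt P | y ∈ C (enumP P w)}.Nonempty := fun y =>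
    ⟨(enumP P).symm y, by
      change y ∈ C (enumP P ((enumP P).symm y))
      rw [Equiv.apply_symm_apply]
      exact hself y⟩
  have wf : WellFounded (fun a b : Wt P => a < b) := wellFounded_lt
  let ρ : P → Wt P := fun y => wf.min {w : Wt P | y ∈ C (enumP P w)} (hne y)
  have h1 : ∀ y, y ∈ C (enumP P (ρ y)) := fun y => wf.min_mem _ (hne y)
  have h2 : ∀ y w, y ∈ C (enumP P w) → ρ y ≤ w := fun y w h => not_lt.1 (wf.not_lt_min _ h)
  refine ⟨ρ, h1, h2, ?_, ?_⟩
  · intro w
    refine (hC (enumP P w)).mono ?_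
    intro p hp
    have hp' : ρ p = w := hp
    rw [← hp']
    exact h1 p
  · intro w μ hμ hPμ
    have hsub : {p | ρ p < w} ⊆ ⋃ v : Set.Iio w, C (enumP P v) := by
      intro p hp
      exact Set.mem_iUnion.2 ⟨⟨ρ p, hp⟩, h1 p⟩
    refine lt_of_le_of_lt (Cardinal.mk_le_mk_of_subset hsub) ?_
    refine lt_of_le_of_lt (Cardinal.mk_iUnion_le_sum_mk) ?_
    refine lt_of_le_of_lt (Cardinal.sum_le_sum _ (fun _ => ℵ₀) fun v =>
      Cardinal.mk_le_aleph0_iff.2 (hC _).to_subtype) ?_
    rw [Cardinal.sum_const']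
    exact Cardinal.mul_lt_of_lt hμ.le (lt_of_lt_of_le (mk_Iio_Wt P w) hPμ) hμ

/-- the closure of a point under a relation with countable fibres is countable -/
theorem countable_closure {P : Type} (R : P → P → Prop) (hR : ∀ y, {x | R x y}.Countable)
    (p : P) : {x | Relation.ReflTransGen (fun a b => R b a) p x}.Countable := by
  let A : ℕ → Set P := fun n => Nat.rec {p} (fun _ B => ⋃ y ∈ B, {x | R x y}) n
  have hA0 : A 0 = {p} := rfl
  have hA1 : ∀ n, A (n + 1) = ⋃ y ∈ A n, {x | R x y} := fun n => rfl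
  have hA : ∀ n, (A n).Countable := by
    intro n
    induction n with
    | zero =>
      rw [hA0]
      exact Set.countable_singleton p
    | succ n ih =>
      rw [hA1]
      exact ih.biUnion fun y _ => hR y
  refine (Set.countable_iUnion hA).mono ?_
  intro x hx
  have hx' : Relation.ReflTransGen (fun a b => R b a) p x := hx
  induction hx' with
  | refl => exact Set.mem_iUnion.2 ⟨0, rfl⟩
  | tail _ hbc ih =>
    rename_i b c hpb
    obtain ⟨n, hn⟩ := Set.mem_iUnion.1 (ih hpb)
    refine Set.mem_iUnion.2 ⟨n + 1, ?_⟩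
    rw [hA1]
    exact Set.mem_biUnion hn hbc

end Pool.Agent.Lib.MP_34f7ca_lc
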