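import Pool.Agent.Lib.MP_34f7ca_lc.REC
import Pool.Agent.Lib.MP_34f7ca_lc.RANK

/-!
# MP_34f7ca_lc, module COLN

The coloring number theorem: a locally countable partial order in which every element has fewer
than `κ` earlier incomparable compatible elements embeds into the Turing degrees.
-/

set_option autoImplicit false

namespace Pool.Agent.Lib.MP_34f7ca_lc

open Pool.Agent.GammaZero Pool.Agent.Mart Cardinal

/-- the earlier elements (in the well-ordering `lt`) which are incomparable to `x` but have a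
common upper bound with `x` -/
def Earlier {P : Type} [PartialOrder P] (lt : P → P → Prop) (x : P) : Set P :=
  {y | lt y x ∧ ¬ y ≤ x ∧ ¬ x ≤ y ∧ ∃ u, x ≤ u ∧ y ≤ u}

/-- a rank function from a family of sets `C p ∋ p` of size at most `κ` -/
theorem exists_rank_gen {P : Type} {κ : Cardinal.{0}} (hκ : ℵ₀ ≤ κ) (C : P → Set P)
    (hself : ∀ p, p ∈ C p) (hC : ∀ p, #(C p) ≤ κ) :
    ∃ ρ : P → Wt P, (∀ y, y ∈ C (enumP P (ρ y))) ∧
      (∀ y w, y ∈ C (enumP P w) → ρ y ≤ w) ∧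
      ∀ w, ∀ μ : Cardinal.{0}, κ < μ → #P ≤ μ → #{p | ρ p < w} < μ := by
  classical
  have hne : ∀ y : P, {w : Wt P | y ∈ C (enumP P w)}.Nonempty := fun y =>
    ⟨(enumP P).symm y, by
      change y ∈ C (enumP P ((enumP P).symm y))
      rw [Equiv.apply_symm_apply]
      exact hself y⟩
  have wf : WellFounded (fun a b : Wt P => a < b) := wellFounded_lt
  let ρ : P → Wt P := fun y => wf.min {w : Wt P | y ∈ C (enumP P w)} (hne y)
  have h1 : ∀ y, y ∈ C (enumP P (ρ y)) := fun y => wf.min_mem _ (hne y)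
  have h2 : ∀ y w, y ∈ C (enumP P w) → ρ y ≤ w := fun y w h => not_lt.1 (wf.not_lt_min _ h)
  refine ⟨ρ, h1, h2, ?_⟩
  intro w μ hμ hPμ
  have hμ0 : ℵ₀ ≤ μ := hκ.trans hμ.le
  have hsub : {p | ρ p < w} ⊆ ⋃ v : Set.Iio w, C (enumP P v) := by
    intro p hp
    exact Set.mem_iUnion.2 ⟨⟨ρ p, hp⟩, h1 p⟩
  refine lt_of_le_of_lt (Cardinal.mk_le_mk_of_subset hsub) ?_
  refine lt_of_le_of_lt (Cardinal.mk_iUnion_le_sum_mk) ?_
  refine lt_of_le_of_lt (Cardinal.sum_le_sum _ (fun _ => κ) fun v => hC _) ?_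
  rw [Cardinal.sum_const']
  exact Cardinal.mul_lt_of_lt hμ0 (lt_of_lt_of_le (mk_Iio_Wt P w) hPμ) hμ

theorem mk_biUnion_le_of_le {α β : Type} {κ : Cardinal.{0}} (hκ : ℵ₀ ≤ κ) {s : Set α}
    (hs : #s ≤ κ) (f : α → Set β) (hf : ∀ a ∈ s, #(f a) ≤ κ) : #(⋃ a ∈ s, f a : Set β) ≤ κ := by
  rw [Set.biUnion_eq_iUnion]
  refine (Cardinal.mk_iUnion_le_sum_mk).trans ?_
  refine (Cardinal.sum_le_sum _ (fun _ => κ) fun a => hf _ a.2).trans ?_
  rw [Cardinal.sum_const']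
  exact Cardinal.mul_le_of_le hκ hs le_rfl

/-- the closure of a point under a relation with fibres of size at most `κ` -/
theorem mk_closure_le {P : Type} {κ : Cardinal.{0}} (hκ : ℵ₀ ≤ κ) (R : P → P → Prop)
    (hR : ∀ y, #{x | R x y} ≤ κ) (p : P) :
    #{x | Relation.ReflTransGen (fun a b => R b a) p x} ≤ κ := by
  let A : ℕ → Set P := fun n => Nat.rec {p} (fun _ B => ⋃ y ∈ B, {x | R x y}) n
  have hA0 : A 0 = {p} := rfl
  have hA1 : ∀ n, A (n + 1) = ⋃ y ∈ A n, {x | R x y} := fun n => rfl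
  have hA : ∀ n, #(↥(A n)) ≤ κ := by
    intro n
    induction n with
    | zero =>
      rw [hA0]
      exact le_trans (Cardinal.mk_le_aleph0_iff.2 (Set.countable_singleton p).to_subtype) hκ
    | succ n ih =>
      rw [hA1]
      exact mk_biUnion_le_of_le hκ ih _ fun y _ => hR y
  have hU : #(⋃ n ∈ (Set.univ : Set ℕ), A n : Set P) ≤ κ :=
    mk_biUnion_le_of_le hκ (le_trans Cardinal.mk_le_aleph0 hκ) _ fun n _ => hA n
  refine (Cardinal.mk_le_mk_of_subset ?_).trans hU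
  intro x hx
  have hx' : Relation.ReflTransGen (fun a b => R b a) p x := hx
  induction hx' with
  | refl => exact Set.mem_biUnion (Set.mem_univ 0) rfl
  | tail _ hbc ih =>
    rename_i b c hpb
    obtain ⟨n, _, hn⟩ := Set.mem_iUnion₂.1 (ih hpb)
    refine Set.mem_biUnion (Set.mem_univ (n + 1)) ?_
    rw [hA1]
    exact Set.mem_biUnion hn hbc

/-- countable unions of sets of size less than `κ`, when `κ` has uncountable cofinality -/
theorem mk_biUnion_lt_of_cof {α β : Type} {κ : Cardinal.{0}} (hκ : ℵ₀ < κ.ord.cof)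
    {s : Set α} (hs : s.Countable) (f : α → Set β) (hf : ∀ a ∈ s, #(f a) < κ) :
    #(⋃ a ∈ s, f a : Set β) < κ := by
  have hκ0 : ℵ₀ < κ := lt_of_lt_of_le hκ (Ordinal.cof_ord_le κ)
  rw [Set.biUnion_eq_iUnion]
  refine lt_of_le_of_lt (Cardinal.mk_iUnion_le _) ?_
  refine Cardinal.mul_lt_of_lt hκ0.le ?_ ?_
  · exact lt_of_le_of_lt (Cardinal.mk_le_aleph0_iff.2 hs.to_subtype) hκ0
  · exact Cardinal.iSup_lt_of_lt_cof_ord
      (lt_of_le_of_lt (Cardinal.mk_le_aleph0_iff.2 hs.to_subtype) hκ) fun a => hf _ a.2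

theorem embeds_of_col {P : Type} [PartialOrder P] {κ : Cardinal.{0}} (hκ : CovMeagre κ)
    (hcof : ℵ₀ < κ.ord.cof) (hP : #P ≤ 𝔠) (hloc : ∀ p : P, (Set.Iic p).Countable)
    (lt : P → P → Prop) [IsWellOrder P lt] (h : ∀ x, #(Earlier lt x) < κ) : Embeds P := by
  classical
  have hκ0 : ℵ₀ < κ := lt_of_lt_of_le hcof (Ordinal.cof_ord_le κ)
  rcases le_or_gt (#P) κ with hPκ | hPκ
  · -- small partial orders
    obtain ⟨ρ, h1, h2, h3, h4⟩ := exists_rank (fun p : P => Set.Iic p) (fun p => le_rfl) hloc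
    have hρ : Monotone ρ := by
      intro x y hxy
      exact h2 x _ (le_trans hxy (h1 y))
    refine embeds_of_rank hκ hloc ρ hρ h3
      (fun w => h4 w 𝔠 Cardinal.aleph0_lt_continuum hP) fun w => ?_
    rcases le_or_gt (#P) ℵ₀ with h5 | h5
    · right
      exact le_trans (Cardinal.mk_set_le _) h5
    · left
      exact lt_of_le_of_lt (Cardinal.mk_le_mk_of_subset fun y hy => hy.1)
        (lt_of_lt_of_le (h4 w (#P) h5 le_rfl) hPκ)
  -- the closure relation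
  let R : P → P → Prop := fun x y => x ≤ y ∨ x ∈ Earlier lt y
  have hR : ∀ y, #{x | R x y} ≤ κ := by
    intro y
    have h0 : {x | R x y} = Set.Iic y ∪ Earlier lt y := rfl
    rw [h0]
    refine (Cardinal.mk_union_le _ _).trans ?_
    refine (Cardinal.add_lt_of_lt hκ0.le ?_ (h y)).le
    exact lt_of_le_of_lt (Cardinal.mk_le_aleph0_iff.2 (hloc y).to_subtype) hκ0
  have hCκ := mk_closure_le hκ0.le R hR
  obtain ⟨ρ₁, h1, h2, h4⟩ := exists_rank_gen hκ0.le
    (fun p : P => {x | Relation.ReflTransGen (fun a b => R b a) p x})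
    (fun p => Relation.ReflTransGen.refl) hCκ
  have hstep : ∀ x y, R x y → ρ₁ x ≤ ρ₁ y := fun x y hxy =>
    h2 x _ (Relation.ReflTransGen.tail (h1 y) hxy)
  have hρ₁ : Monotone ρ₁ := fun x y hxy => hstep x y (Or.inl hxy)
  have hfib1 : ∀ w, #{p | ρ₁ p = w} ≤ κ := by
    intro w
    refine (Cardinal.mk_le_mk_of_subset ?_).trans (hCκ (enumP P w))
    intro p hp
    have hp' : ρ₁ p = w := hp
    have h5 := h1 p
    rw [hp'] at h5
    exact h5
  -- the second rank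
  let K : Type := κ.ord.ToType
  have hK : #K = κ := Cardinal.mk_ord_toType κ
  have hKne : Nonempty K := by
    rw [← Cardinal.mk_ne_zero_iff, hK]
    exact (Cardinal.aleph0_pos.trans hκ0).ne'
  have hj : ∀ w : Wt P, ∃ j : P → K, Set.InjOn j {p | ρ₁ p = w} := by
    intro w
    have h5 : #{p | ρ₁ p = w} ≤ #K := by
      rw [hK]
      exact hfib1 w
    obtain ⟨f⟩ := Cardinal.le_def _ _ |>.1 h5
    refine ⟨fun p => if hp : ρ₁ p = w then f ⟨p, hp⟩ else Classical.arbitrary K, ?_⟩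
    intro p hp q hq hpq
    have hp' : ρ₁ p = w := hp
    have hq' : ρ₁ q = w := hq
    simp only [dif_pos hp', dif_pos hq'] at hpq
    exact congrArg Subtype.val (f.injective hpq)
  choose j hj using hj
  have hne : ∀ y : P, {v : K | ∃ x, ρ₁ x = ρ₁ y ∧ j (ρ₁ x) x = v ∧ y ≤ x}.Nonempty := fun y =>
    ⟨j (ρ₁ y) y, y, rfl, rfl, le_rfl⟩
  have wf : WellFounded (fun a b : K => a < b) := wellFounded_lt
  let ρ₂ : P → K := fun y => wf.min {v : K | ∃ x, ρ₁ x = ρ₁ y ∧ j (ρ₁ x) x = v ∧ y ≤ x} (hne y)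
  have h21 : ∀ y, ∃ x, ρ₁ x = ρ₁ y ∧ j (ρ₁ x) x = ρ₂ y ∧ y ≤ x := fun y => wf.min_mem _ (hne y)
  have h22 : ∀ y x, ρ₁ x = ρ₁ y → y ≤ x → ρ₂ y ≤ j (ρ₁ x) x := by
    intro y x hx hyx
    have hmem : j (ρ₁ x) x ∈ {v : K | ∃ x, ρ₁ x = ρ₁ y ∧ j (ρ₁ x) x = v ∧ y ≤ x} :=
      ⟨x, hx, rfl, hyx⟩
    exact not_lt.1 (wf.not_lt_min _ hmem)
  let ρ : P → Wt P ×ₗ K := fun y => toLex (ρ₁ y, ρ₂ y)
  have hρ : Monotone ρ := by
    intro y y' hyy
    change toLex (ρ₁ y, ρ₂ y) ≤ toLex (ρ₁ y', ρ₂ y')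
    rw [Prod.Lex.toLex_le_toLex]
    rcases (hρ₁ hyy).lt_or_eq with h5 | h5
    · exact Or.inl h5
    · right
      refine ⟨h5, ?_⟩
      obtain ⟨x, hx1, hx2, hx3⟩ := h21 y'
      change ρ₂ y ≤ ρ₂ y'
      rw [← hx2]
      exact h22 y x (hx1.trans h5.symm) (hyy.trans hx3)
  have hfib : ∀ w, {p | ρ p = w}.Countable := by
    intro w
    let X : Set P := {x | ρ₁ x = (ofLex w).1 ∧ j (ρ₁ x) x = (ofLex w).2}
    have hsub : X.Subsingleton := by
      rintro x ⟨hx1, hx2⟩ x' ⟨hx1', hx2'⟩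
      rw [hx1] at hx2
      rw [hx1'] at hx2'
      exact hj (ofLex w).1 hx1 hx1' (hx2.trans hx2'.symm)
    have hXc : (⋃ x ∈ X, Set.Iic x).Countable := hsub.countable.biUnion fun x _ => hloc x
    refine hXc.mono ?_
    intro p hp
    have hp' : ρ p = w := hp
    obtain ⟨x, hx1, hx2, hx3⟩ := h21 p
    have hxX : x ∈ X := by
      change ρ₁ x = (ofLex w).1 ∧ j (ρ₁ x) x = (ofLex w).2
      rw [← hp']
      exact ⟨hx1, hx2⟩
    exact Set.mem_biUnion hxX (Set.mem_Iic.2 hx3)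
  have hκc : κ < 𝔠 := lt_of_lt_of_le hPκ hP
  refine embeds_of_rank hκ hloc ρ hρ hfib ?_ ?_
  · intro w
    have hsub : {p | ρ p < w} ⊆ {p | ρ₁ p < (ofLex w).1} ∪ {p | ρ₁ p = (ofLex w).1} := by
      intro p hp
      have hp' : ρ p < w := hp
      rw [Prod.Lex.lt_iff] at hp'
      rcases hp' with h5 | h5
      · exact Or.inl h5
      · exact Or.inr h5.1
    refine lt_of_le_of_lt (Cardinal.mk_le_mk_of_subset hsub) ?_
    refine lt_of_le_of_lt (Cardinal.mk_union_le _ _) ?_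
    refine Cardinal.add_lt_of_lt Cardinal.aleph0_lt_continuum.le ?_ ?_
    · exact h4 _ 𝔠 hκc hP
    · exact lt_of_le_of_lt (hfib1 _) hκc
  · intro w
    left
    have hsub : {y | ρ y < w ∧ ∃ q, ρ q = w ∧ Compat y q} ⊆
        (⋃ q ∈ {p | ρ p = w}, (Set.Iic q ∪ Earlier lt q)) ∪
          ⋃ v ∈ Set.Iio (ofLex w).2, {p | ρ p = toLex ((ofLex w).1, v)} := by
      rintro y ⟨hy, q, hq, u, hyu, hqu⟩
      rw [Prod.Lex.lt_iff] at hy
      rcases hy with hy | ⟨hy1, hy2⟩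
      · left
        have hq1 : ρ₁ q = (ofLex w).1 := by
          rw [← hq]
          rfl
        have hy' : ρ₁ y < ρ₁ q := by
          rw [hq1]
          exact hy
        refine Set.mem_biUnion (show q ∈ {p | ρ p = w} from hq) ?_
        by_cases hyq : y ≤ q
        · exact Or.inl hyq
        by_cases hqy : q ≤ y
        · exact absurd hy' (not_lt.2 (hρ₁ hqy))
        right
        rcases trichotomous_of lt y q with h5 | h5 | h5
        · exact ⟨h5, hyq, hqy, u, hqu, hyu⟩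
        · exact absurd (le_of_eq h5) hyq
        · have h6 := hstep q y (Or.inr ⟨h5, hqy, hyq, u, hyu, hqu⟩)
          exact absurd hy' (not_lt.2 h6)
      · right
        refine Set.mem_biUnion hy2 ?_
        change toLex (ρ₁ y, ρ₂ y) = toLex ((ofLex w).1, ρ₂ y)
        have hy1' : ρ₁ y = (ofLex w).1 := hy1
        rw [hy1']
    refine lt_of_le_of_lt (Cardinal.mk_le_mk_of_subset hsub) ?_
    refine lt_of_le_of_lt (Cardinal.mk_union_le _ _) ?_
    refine Cardinal.add_lt_of_lt hκ0.le ?_ ?_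
    · refine mk_biUnion_lt_of_cof hcof (hfib w) _ fun q _ => ?_
      refine lt_of_le_of_lt (Cardinal.mk_union_le _ _) ?_
      refine Cardinal.add_lt_of_lt hκ0.le ?_ (h q)
      exact lt_of_le_of_lt (Cardinal.mk_le_aleph0_iff.2 (hloc q).to_subtype) hκ0
    · rw [Set.biUnion_eq_iUnion]
      refine lt_of_le_of_lt (Cardinal.mk_iUnion_le_sum_mk) ?_
      refine lt_of_le_of_lt (Cardinal.sum_le_sum _ (fun _ => ℵ₀) fun v =>
        Cardinal.mk_le_aleph0_iff.2 (hfib _).to_subtype) ?_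
      rw [Cardinal.sum_const']
      exact Cardinal.mul_lt_of_lt hκ0.le (Cardinal.mk_Iio_toType_ord_lt _) hκ0

end Pool.Agent.Lib.MP_34f7ca_lc
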