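import Pool.Agent.Lib.MP_34f7ca_lc.Defs

/-!
# MP_34f7ca_lc, module COVM

The covering number of the meagre ideal of Baire space.
-/

set_option autoImplicit false

namespace Pool.Agent.Lib.MP_34f7ca_lc

open Pool.Agent.GammaZero Pool.Agent.Mart Cardinal

/-- fewer than `κ` meagre subsets of Baire space never cover Baire space -/
def CovMeagre (κ : Cardinal.{0}) : Prop :=
  ∀ 𝒜 : Set (Set (ℕ → ℕ)), (∀ A ∈ 𝒜, IsMeagre A) → #𝒜 < κ → ⋃₀ 𝒜 ≠ Set.univ

/-- the covering number of the meagre ideal: the least cardinality of a family of meagre subsets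
of Baire space whose union is Baire space -/
noncomputable def covMeagre : Cardinal.{0} :=
  sInf {c | ∃ 𝒜 : Set (Set (ℕ → ℕ)), (∀ A ∈ 𝒜, IsMeagre A) ∧ ⋃₀ 𝒜 = Set.univ ∧ #𝒜 = c}

theorem covMeagre_of_le {κ : Cardinal.{0}} (h : κ ≤ covMeagre) : CovMeagre κ := by
  intro 𝒜 h𝒜 hcard hun
  have h1 : covMeagre ≤ #𝒜 := csInf_le' ⟨𝒜, h𝒜, hun, rfl⟩
  exact absurd hcard (not_lt.2 (h.trans h1))

theorem isMeagre_singleton_nat (x : ℕ → ℕ) : IsMeagre ({x} : Set (ℕ → ℕ)) := by
  have h1 : IsClosed ({x} : Set (ℕ → ℕ)) := isClosed_singleton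
  apply IsNowhereDense.isMeagre
  rw [h1.isNowhereDense_iff, Set.eq_empty_iff_forall_notMem]
  intro y hy
  rw [mem_interior] at hy
  obtain ⟨V, hV, hVo, hyV⟩ := hy
  rw [isOpen_pi_iff] at hVo
  obtain ⟨I, u, hu, hsub⟩ := hVo y hyV
  have hyx : y = x := hV hyV
  let n : ℕ := I.sup id + 1
  have hn : n ∉ I := by
    intro hn
    have h2 : n ≤ I.sup id := Finset.le_sup (f := id) hn
    exact absurd h2 (not_le.2 (Nat.lt_succ_self _))
  have h3 : Function.update x n (x n + 1) ∈ V := by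
    apply hsub
    intro i hi
    have hin : i ≠ n := fun h => hn (h ▸ hi)
    rw [Function.update_of_ne hin, ← hyx]
    exact (hu i hi).2
  have h4 : Function.update x n (x n + 1) = x := hV h3
  have h5 := congrFun h4 n
  rw [Function.update_self] at h5
  omega

theorem CovMeagre.le_continuum {κ : Cardinal.{0}} (h : CovMeagre κ) : κ ≤ 𝔠 := by
  by_contra hcon
  push Not at hcon
  refine h (Set.range fun x : ℕ → ℕ => ({x} : Set (ℕ → ℕ))) ?_ ?_ ?_
  · rintro _ ⟨x, rfl⟩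
    exact isMeagre_singleton_nat x
  · refine lt_of_le_of_lt Cardinal.mk_range_le ?_
    have h1 : #(ℕ → ℕ) = 𝔠 := by simp
    rw [h1]
    exact hcon
  · rw [Set.sUnion_range]
    exact Set.iUnion_of_singleton _

theorem covMeagre_aleph_one : CovMeagre (ℵ₁) := by
  intro 𝒜 h𝒜 hcard hun
  have hc : 𝒜.Countable := by
    rw [← Cardinal.le_aleph0_iff_set_countable, ← Cardinal.lt_aleph_one_iff]
    exact hcard
  have hcc : Countable 𝒜 := hc.to_subtype
  have h1 : IsMeagre (Set.univ : Set (ℕ → ℕ)) := by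
    rw [← hun, Set.sUnion_eq_iUnion]
    exact isMeagre_iUnion fun A => h𝒜 _ A.2
  obtain ⟨x, hx⟩ := (dense_of_mem_residual h1).nonempty
  exact hx (Set.mem_univ x)

/-- a family of fewer than `κ` (or countably many) meagre sets has a common non-member -/
theorem CovMeagre.exists_notMem {κ : Cardinal.{0}} (hκ : CovMeagre κ) {ι : Type}
    (hι : #ι < κ ∨ #ι ≤ ℵ₀) (A : ι → Set (ℕ → ℕ)) (hA : ∀ i, IsMeagre (A i)) :
    ∃ x, ∀ i, x ∉ A i := by
  have key : ∀ κ' : Cardinal.{0}, CovMeagre κ' → #ι < κ' → ∃ x, ∀ i, x ∉ A i := by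
    intro κ' hκ' h
    have h1 := hκ' (Set.range A) (by rintro _ ⟨i, rfl⟩; exact hA i)
      (lt_of_le_of_lt Cardinal.mk_range_le h)
    rw [Set.sUnion_range, Set.ne_univ_iff_exists_notMem] at h1
    obtain ⟨x, hx⟩ := h1
    exact ⟨x, fun i hi => hx (Set.mem_iUnion.2 ⟨i, hi⟩)⟩
  rcases hι with h | h
  · exact key κ hκ h
  · exact key _ covMeagre_aleph_one (Cardinal.lt_aleph_one_iff.2 h)

end Pool.Agent.Lib.MP_34f7ca_lc
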