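import Pool.Agent.Lib.MP_34f7ca_lc.Defs

/-!
Module CSET: every countable preorder is induced by inclusion of computable sets, with
witnesses.
-/

set_option autoImplicit false

namespace Pool.Agent.Lib.MP_34f7ca_lc

open Pool.Agent.GammaZero Pool.Agent.Mart

/-- the relation coded by the second component of `u` -/
private def csR (u i j : ℕ) : Prop := bt u.unpair.2 (Nat.pair i j) = 1

/-- the coded relation is transitive on `{0, .., m}` -/
private def csT (u : ℕ) : Prop :=
  ∀ i < u.unpair.1 + 1, ∀ j < u.unpair.1 + 1, ∀ l < u.unpair.1 + 1,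
    csR u i j → csR u j l → csR u i l

/-- the coded relation agrees with `r` on `{0, .., l}` -/
private def csA (r : ℕ → ℕ → Prop) (u l : ℕ) : Prop :=
  l < u.unpair.1 + 1 ∧ ∀ i < l + 1, ∀ j < l + 1, (csR u i j ↔ r i j)

private def csS (r : ℕ → ℕ → Prop) (k : ℕ) : Set ℕ :=
  {u | csT u ∧ ∃ l, csA r u l ∧ csR u u.unpair.1 l ∧ r l k}

private theorem cs_ci_fst {O : Set (ℕ →. ℕ)} {α : Type} [Primcodable α] {f : α → ℕ}
    (hf : Computable f) : CI O (fun a => (f a).unpair.1) :=
  CI.of_computable ((Computable.fst.comp Computable.unpair).comp hf)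

private theorem cs_di_R {O : Set (ℕ →. ℕ)} {α : Type} [Primcodable α] {f g h : α → ℕ}
    (hf : Computable f) (hg : Computable g) (hh : Computable h) :
    DI O (fun a => csR (f a) (g a) (h a)) :=
  DI.eq (CI.bt (CI.of_computable ((Computable.snd.comp Computable.unpair).comp hf))
    (CI.of_computable (Primrec₂.natPair.to_comp.comp hg hh))) (CI.const 1)

private theorem cs_di_const {O : Set (ℕ →. ℕ)} {α : Type} [Primcodable α] (q : Prop) :
    DI O (fun _ : α => q) := by
  by_cases hq : q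
  · exact (DI.le (CI.const 0) (CI.const 0)).of_iff (fun _ => by simp [hq])
  · exact (DI.lt (CI.const 0) (CI.const 0)).of_iff (fun _ => by simp [hq])

private theorem cs_di_iff {O : Set (ℕ →. ℕ)} {α : Type} [Primcodable α] {p q : α → Prop}
    (hp : DI O p) (hq : DI O q) : DI O (fun a => (p a ↔ q a)) :=
  ((hp.imp hq).and (hq.imp hp)).of_iff (fun _ => iff_def)

private theorem cs_di_ball {O : Set (ℕ →. ℕ)} {α : Type} [Primcodable α] (n : ℕ)
    {p : ℕ → α → Prop} (hp : ∀ i, DI O (p i)) : DI O (fun a => ∀ i < n, p i a) := by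
  induction n with
  | zero => exact (cs_di_const True).of_iff (fun _ => by simp)
  | succ n ih =>
    refine (ih.and (hp n)).of_iff (fun a => ?_)
    constructor
    · exact fun h => ⟨fun i hi => h i (Nat.lt_succ_of_lt hi), h n (Nat.lt_succ_self n)⟩
    · rintro ⟨h1, h2⟩ i hi
      rcases Nat.lt_succ_iff_lt_or_eq.1 hi with hi | rfl
      · exact h1 i hi
      · exact h2

private theorem cs_di_bex {O : Set (ℕ →. ℕ)} {α : Type} [Primcodable α] (n : ℕ)
    {p : ℕ → α → Prop} (hp : ∀ i, DI O (p i)) : DI O (fun a => ∃ i < n, p i a) := by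
  refine (DI.not (cs_di_ball n (fun i => (hp i).not))).of_iff (fun a => ?_)
  push Not
  rfl

private theorem cs_di_T {O : Set (ℕ →. ℕ)} : DI O csT := by
  have hb1 : Computable (fun a : ℕ => a) := Computable.id
  have hb2 : Computable (fun a : ℕ × ℕ => a.1) := Computable.fst
  have hb3 : Computable (fun a : (ℕ × ℕ) × ℕ => a.1.1) := Computable.fst.comp Computable.fst
  have h4 : DI O (fun a : ((ℕ × ℕ) × ℕ) × ℕ =>
      csR a.1.1.1 a.1.1.2 a.1.2 → csR a.1.1.1 a.1.2 a.2 → csR a.1.1.1 a.1.1.2 a.2) := by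
    have e0 : Computable (fun a : ((ℕ × ℕ) × ℕ) × ℕ => a.1.1.1) :=
      Computable.fst.comp (Computable.fst.comp Computable.fst)
    have e1 : Computable (fun a : ((ℕ × ℕ) × ℕ) × ℕ => a.1.1.2) :=
      Computable.snd.comp (Computable.fst.comp Computable.fst)
    have e2 : Computable (fun a : ((ℕ × ℕ) × ℕ) × ℕ => a.1.2) :=
      Computable.snd.comp Computable.fst
    have e3 : Computable (fun a : ((ℕ × ℕ) × ℕ) × ℕ => a.2) := Computable.snd
    exact (cs_di_R e0 e1 e2).imp ((cs_di_R e0 e2 e3).imp (cs_di_R e0 e1 e3))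
  have h3 := DI.ball h4 ((cs_ci_fst hb3 (O := O)).add (CI.const 1))
  have h2 := DI.ball h3 ((cs_ci_fst hb2 (O := O)).add (CI.const 1))
  have h1 := DI.ball h2 ((cs_ci_fst hb1 (O := O)).add (CI.const 1))
  exact h1

private theorem cs_di_A {O : Set (ℕ →. ℕ)} (r : ℕ → ℕ → Prop) (l : ℕ) :
    DI O (fun u => csA r u l) := by
  refine (DI.lt (CI.const l) ((cs_ci_fst Computable.id).add (CI.const 1))).and ?_
  refine cs_di_ball (l + 1) (p := fun i u => ∀ j < l + 1, (csR u i j ↔ r i j)) (fun i => ?_)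
  refine cs_di_ball (l + 1) (p := fun j u => (csR u i j ↔ r i j)) (fun j => ?_)
  exact cs_di_iff (cs_di_R Computable.id (Computable.const i) (Computable.const j))
    (cs_di_const _)

private theorem csA.mono {r : ℕ → ℕ → Prop} {u l k : ℕ} (h : csA r u l) (hk : k ≤ l) :
    csA r u k :=
  ⟨lt_of_le_of_lt hk h.1, fun i hi j hj => h.2 i (by omega) j (by omega)⟩

private theorem cs_mem_iff {r : ℕ → ℕ → Prop} (hr : ∀ i, r i i)
    (u k : ℕ) : u ∈ csS r k ↔ csT u ∧ ((csA r u k ∧ csR u u.unpair.1 k) ∨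
      ∃ l < k, csA r u l ∧ csR u u.unpair.1 l ∧ r l k) := by
  constructor
  · rintro ⟨hT, l, hA, hR, hrl⟩
    refine ⟨hT, ?_⟩
    by_cases hk : csA r u k
    · left
      refine ⟨hk, ?_⟩
      have hlk : csR u l k := by
        rcases le_total l k with h | h
        · exact (hk.2 l (by omega) k (by omega)).2 hrl
        · exact (hA.2 l (by omega) k (by omega)).2 hrl
      exact hT _ (Nat.lt_succ_self _) l hA.1 k hk.1 hR hlk
    · right
      refine ⟨l, ?_, hA, hR, hrl⟩
      by_contra hlk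
      exact hk (hA.mono (not_lt.1 hlk))
  · rintro ⟨hT, h | ⟨l, -, h⟩⟩
    · exact ⟨hT, k, h.1, h.2, hr k⟩
    · exact ⟨hT, l, h⟩

open Classical in
private noncomputable def csG (r : ℕ → ℕ → Prop) (i : ℕ) : ℕ :=
  Nat.pair i (enc (fun q => if r q.unpair.1 q.unpair.2 then 1 else 0) (Nat.pair (i + 1) (i + 1)))

private theorem csG_R (r : ℕ → ℕ → Prop) (i a b : ℕ) (ha : a ≤ i) (hb : b ≤ i) :
    csR (csG r i) a b ↔ r a b := by
  classical
  unfold csR csG
  rw [Nat.unpair_pair, bt_enc]
  · simp only [Nat.unpair_pair]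
    by_cases h : r a b
    · simp [h]
    · simp [h]
  · exact lt_of_lt_of_le (Nat.pair_lt_pair_left _ (Nat.lt_succ_of_le ha))
      (Nat.pair_lt_pair_right _ (Nat.lt_succ_of_le hb)).le

theorem exists_sets (r : ℕ → ℕ → Prop) (hr : ∀ i, r i i) (ht : ∀ i j k, r i j → r j k → r i k) :
    ∃ (S : ℕ → Set ℕ) (g : ℕ → ℕ), (∀ k, CompSet (S k)) ∧ Function.Injective g ∧
      (∀ i k, r i k → S i ⊆ S k) ∧ ∀ i k, g i ∈ S k ↔ r i k := by
  refine ⟨csS r, csG r, fun k => ?_, fun i j hij => ?_, fun i k hik u hu => ?_, fun i k => ?_⟩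
  · refine DI.of_iff ?_ (fun u => cs_mem_iff hr u k)
    refine cs_di_T.and ?_
    have hor : ∀ {p q : ℕ → Prop}, DI (∅ : Set (ℕ →. ℕ)) p → DI (∅ : Set (ℕ →. ℕ)) q →
        DI (∅ : Set (ℕ →. ℕ)) (fun u => p u ∨ q u) := by
      intro p q hp hq
      exact (hp.not.imp hq).of_iff (fun u => by tauto)
    have hRR : ∀ l, DI (∅ : Set (ℕ →. ℕ)) (fun u => csR u u.unpair.1 l) := fun l =>
      cs_di_R Computable.id (Computable.fst.comp Computable.unpair) (Computable.const l)
    refine hor ((cs_di_A r k).and (hRR k)) ?_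
    refine cs_di_bex k (p := fun l u => csA r u l ∧ csR u u.unpair.1 l ∧ r l k) (fun l => ?_)
    exact (cs_di_A r l).and ((hRR l).and (cs_di_const _))
  · have := congrArg (fun u => (Nat.unpair u).1) hij
    simpa [csG] using this
  · obtain ⟨hT, l, hA, hR, hrl⟩ := hu
    exact ⟨hT, l, hA, hR, ht _ _ _ hrl hik⟩
  · have hm : (csG r i).unpair.1 = i := by unfold csG; rw [Nat.unpair_pair]
    have hAll : ∀ l ≤ i, csA r (csG r i) l := by
      intro l hl
      refine ⟨by rw [hm]; omega, fun a ha b hb => csG_R r i a b (by omega) (by omega)⟩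
    constructor
    · rintro ⟨-, l, hA, hR, hrl⟩
      have hl : l ≤ i := by have := hA.1; rw [hm] at this; omega
      rw [hm, csG_R r i i l le_rfl hl] at hR
      exact ht _ _ _ hR hrl
    · intro h
      refine ⟨?_, i, hAll i le_rfl, ?_, h⟩
      · intro a ha b hb c hc hab hbc
        rw [hm] at ha hb hc
        rw [csG_R r i a b (by omega) (by omega)] at hab
        rw [csG_R r i b c (by omega) (by omega)] at hbc
        rw [csG_R r i a c (by omega) (by omega)]
        exact ht _ _ _ hab hbc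
      · rw [hm, csG_R r i i i le_rfl le_rfl]
        exact hr i

end Pool.Agent.Lib.MP_34f7ca_lc
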