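import Pool.Agent.Lib.MP_d1129e_lc.Cont

/-!
# MP_34f7ca_lc (Sacks: embedding locally countable partial orders into the Turing degrees)

Definitions.  `TR A B` (from the oracle library) is Turing reducibility of reals `ℕ → Bool`.
-/

set_option autoImplicit false

namespace Pool.Agent.Lib.MP_34f7ca_lc

open Pool.Agent.GammaZero Pool.Agent.Mart

/-- `z` is computable from finitely many members of `S`: `z` lies in the ideal generated by `S`. -/
def IdealMem (S : Set (ℕ → Bool)) (z : ℕ → Bool) : Prop :=
  Nat.RecursiveIn (orc '' S) (orc z)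

open Classical in
/-- The `n`-th column at the point `x` of Baire space: an old column is `c n` with a finite initial
segment replaced (the segment is coded by `x ⟨n, 0⟩`), a new column consists of free bits. -/
noncomputable def col (old : Set ℕ) (c : ℕ → ℕ → Bool) (x : ℕ → ℕ) (n k : ℕ) : Bool :=
  if n ∈ old then ((dl (x (Nat.pair n 0)))[k]?).getD (c n k)
  else decide (x (Nat.pair n k) % 2 = 1)

open Classical in
/-- The join of the columns with index in `S`. -/
noncomputable def amal (old : Set ℕ) (c : ℕ → ℕ → Bool) (S : Set ℕ) (x : ℕ → ℕ) : ℕ → Bool :=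
  fun m => if m.unpair.1 ∈ S then col old c x m.unpair.1 m.unpair.2 else false

/-- `S` is a computable set of natural numbers. -/
def CompSet (S : Set ℕ) : Prop := DI (∅ : Set (ℕ →. ℕ)) (fun n : ℕ => n ∈ S)

/-- The invariant of the construction: on the set `D`, `f` is order preserving, and no value
`f z`, `z ∈ D`, lies in the ideal generated by the values at points of `D` below `p`, unless
`z ≤ p`. -/
structure Inv {P : Type} [PartialOrder P] (D : Set P) (f : P → ℕ → Bool) : Prop where
  mono : ∀ y ∈ D, ∀ y' ∈ D, y ≤ y' → TR (f y) (f y')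
  ideal : ∀ p : P, ∀ z ∈ D, IdealMem (f '' {y | y ∈ D ∧ y ≤ p}) (f z) → z ≤ p

/-- two elements are compatible if they have a common upper bound -/
def Compat {P : Type} [PartialOrder P] (x y : P) : Prop := ∃ u, x ≤ u ∧ y ≤ u

/-- the union of fewer than `κ` meagre subsets of Baire space is meagre -/
def AddMeagre (κ : Cardinal.{0}) : Prop :=
  ∀ 𝒜 : Set (Set (ℕ → ℕ)), (∀ A ∈ 𝒜, IsMeagre A) → Cardinal.mk 𝒜 < κ → IsMeagre (⋃₀ 𝒜)

/-- `P` embeds into the Turing degrees -/
def Embeds (P : Type) [PartialOrder P] : Prop :=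
  ∃ f : P → ℕ → Bool, ∀ x y : P, x ≤ y ↔ TR (f x) (f y)

end Pool.Agent.Lib.MP_34f7ca_lc
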