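import Pool.Agent.Lib.MP_34f7ca_lc.SEARCH

/-! # MP_34f7ca_lc, module EXACT: exactness holds on a comeagre set of pairs -/

set_option autoImplicit false

namespace Pool.Agent.Lib.MP_34f7ca_lc

open Pool.Agent.GammaZero Pool.Agent.Mart Cardinal

theorem exactness (old : Set ℕ) (c : ℕ → ℕ → Bool) {S : Set ℕ} (hS : CompSet S)
    (b : ℕ → Bool) :
    IsMeagre {q : (ℕ → ℕ) × (ℕ → ℕ) | ∃ z : ℕ → Bool, TR z (bjoin b (amal old c S q.1)) ∧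
      TR z (bjoin b (amal old c S q.2)) ∧
      ¬ IdealMem (insert b {s | ∃ n ∈ S, n ∈ old ∧ s = c n}) z} := by
  let J : (ℕ → ℕ) → ℕ → Bool := fun x => bjoin b (amal old c S x)
  have hJ : Continuous J := continuous_bjoin_amal old c S b
  let T : ℕ × ℕ → Set ((ℕ → ℕ) × (ℕ → ℕ)) := fun ee => {q | ∃ z : ℕ → Bool,
    Idx (J q.1) ee.1 z ∧ Idx (J q.2) ee.2 z ∧
      ¬ IdealMem (insert b {s | ∃ n ∈ S, n ∈ old ∧ s = c n}) z}
  have hsub : {q : (ℕ → ℕ) × (ℕ → ℕ) | ∃ z : ℕ → Bool, TR z (bjoin b (amal old c S q.1)) ∧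
      TR z (bjoin b (amal old c S q.2)) ∧
      ¬ IdealMem (insert b {s | ∃ n ∈ S, n ∈ old ∧ s = c n}) z} ⊆ ⋃ ee, T ee := by
    rintro q ⟨z, h1, h2, h3⟩
    obtain ⟨e1, he1⟩ := tr_iff_idx.1 h1
    obtain ⟨e2, he2⟩ := tr_iff_idx.1 h2
    exact Set.mem_iUnion.2 ⟨(e1, e2), z, he1, he2, h3⟩
  refine IsMeagre.mono hsub (isMeagre_iUnion fun ee => ?_)
  -- the conflict set
  let O : Set ((ℕ → ℕ) × (ℕ → ℕ)) := ⋃ r : ℕ × ℕ × ℕ × ℕ × ℕ,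
    {q | U (J q.1) ee.1 r.1 r.2.1 r.2.2.1 ∧ U (J q.2) ee.2 r.1 r.2.2.2.1 r.2.2.2.2 ∧
      r.2.2.1 ≠ r.2.2.2.2}
  have hO : IsOpen O := by
    refine isOpen_iUnion fun r => ?_
    by_cases hr : r.2.2.1 ≠ r.2.2.2.2
    · have h1 : IsOpen {q : (ℕ → ℕ) × (ℕ → ℕ) | U (J q.1) ee.1 r.1 r.2.1 r.2.2.1} :=
        (isOpen_U _ _ _ _).preimage (hJ.comp continuous_fst)
      have h2 : IsOpen {q : (ℕ → ℕ) × (ℕ → ℕ) | U (J q.2) ee.2 r.1 r.2.2.2.1 r.2.2.2.2} :=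
        (isOpen_U _ _ _ _).preimage (hJ.comp continuous_snd)
      have h3 : {q : (ℕ → ℕ) × (ℕ → ℕ) | U (J q.1) ee.1 r.1 r.2.1 r.2.2.1 ∧
          U (J q.2) ee.2 r.1 r.2.2.2.1 r.2.2.2.2 ∧ r.2.2.1 ≠ r.2.2.2.2} =
          {q : (ℕ → ℕ) × (ℕ → ℕ) | U (J q.1) ee.1 r.1 r.2.1 r.2.2.1} ∩
          {q : (ℕ → ℕ) × (ℕ → ℕ) | U (J q.2) ee.2 r.1 r.2.2.2.1 r.2.2.2.2} := by
        ext q
        constructor
        · rintro ⟨h4, h5, _⟩
          exact ⟨h4, h5⟩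
        · rintro ⟨h4, h5⟩
          exact ⟨h4, h5, hr⟩
      rw [h3]
      exact h1.inter h2
    · have h3 : {q : (ℕ → ℕ) × (ℕ → ℕ) | U (J q.1) ee.1 r.1 r.2.1 r.2.2.1 ∧
          U (J q.2) ee.2 r.1 r.2.2.2.1 r.2.2.2.2 ∧ r.2.2.1 ≠ r.2.2.2.2} = ∅ := by
        ext q
        constructor
        · rintro ⟨_, _, h6⟩
          exact (hr h6).elim
        · exact fun h => h.elim
      rw [h3]
      exact isOpen_empty
  refine isMeagre_of_closed (C := Oᶜ) hO.isClosed_compl ?_ ?_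
  · -- no conflict on `T`
    rintro q ⟨z, h1, h2, _⟩ hq
    obtain ⟨⟨k, t, v, t', v'⟩, h3, h4, h5⟩ := Set.mem_iUnion.1 hq
    obtain ⟨s, hs⟩ := h1 k
    obtain ⟨s', hs'⟩ := h2 k
    exact h5 ((h3.unique hs).trans (h4.unique hs').symm)
  · rintro ⟨x, x'⟩ ⟨z, h1, h2, h3⟩ hq
    -- a cylinder around `x` without conflict
    have hV : IsOpen {y : ℕ → ℕ | (y, x') ∈ interior Oᶜ} :=
      isOpen_interior.preimage (Continuous.prodMk_left x')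
    obtain ⟨M, hM⟩ := exists_cyl hV hq
    apply h3
    refine search old c hS b x M ee.1 z h1 ?_
    intro y hy k t v hv
    obtain ⟨s', hs'⟩ := h2 k
    by_contra hne
    refine interior_subset (hM y hy) ?_
    exact Set.mem_iUnion.2 ⟨(k, t, v, s', (z k).toNat), hv, hs', hne⟩

end Pool.Agent.Lib.MP_34f7ca_lc
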