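import Pool.Agent.Lib.MP_34f7ca_lc.COL

/-! # MP_34f7ca_lc, module GEN: a new column outside `S` is generic over the rest -/

set_option autoImplicit false

namespace Pool.Agent.Lib.MP_34f7ca_lc

open Pool.Agent.GammaZero Pool.Agent.Mart Cardinal

theorem generic_col (old : Set ℕ) (c : ℕ → ℕ → Bool) (S : Set ℕ) (b : ℕ → Bool) {n : ℕ}
    (hn : n ∉ old) (hnS : n ∉ S) :
    IsMeagre {x : ℕ → ℕ | TR (col old c x n) (bjoin b (amal old c S x))} := by
  classical
  let J : (ℕ → ℕ) → ℕ → Bool := fun x => bjoin b (amal old c S x)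
  have hJ : Continuous J := continuous_bjoin_amal old c S b
  have hcol : Continuous fun x : ℕ → ℕ => col old c x n := continuous_col old c n
  let T : ℕ → Set (ℕ → ℕ) := fun e => {x | Idx (J x) e (col old c x n)}
  have hsub : {x : ℕ → ℕ | TR (col old c x n) (bjoin b (amal old c S x))} ⊆ ⋃ e, T e := by
    intro x hx
    obtain ⟨e, he⟩ := tr_iff_idx.1 hx
    exact Set.mem_iUnion.2 ⟨e, he⟩
  refine IsMeagre.mono hsub (isMeagre_iUnion fun e => ?_)
  let O : Set (ℕ → ℕ) := ⋃ r : ℕ × ℕ × ℕ,
    {x | U (J x) e r.1 r.2.1 r.2.2 ∧ (col old c x n r.1).toNat ≠ r.2.2}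
  have hO : IsOpen O := by
    refine isOpen_iUnion fun r => ?_
    have h1 : IsOpen {x : ℕ → ℕ | U (J x) e r.1 r.2.1 r.2.2} :=
      (isOpen_U _ _ _ _).preimage hJ
    have h2 : IsOpen {x : ℕ → ℕ | (col old c x n r.1).toNat ≠ r.2.2} := by
      have h3 : Continuous fun x : ℕ → ℕ => col old c x n r.1 :=
        (continuous_apply r.1).comp hcol
      exact (isOpen_discrete {β : Bool | β.toNat ≠ r.2.2}).preimage h3
    exact h1.inter h2
  refine isMeagre_of_closed (C := Oᶜ) hO.isClosed_compl ?_ ?_
  · intro x hx hq
    obtain ⟨⟨k, t, v⟩, h3, h4⟩ := Set.mem_iUnion.1 hq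
    obtain ⟨s, hs⟩ := hx k
    exact h4 (hs.unique h3)
  · intro x hx hq
    obtain ⟨M, hM⟩ := exists_cyl isOpen_interior hq
    -- flip the parity at the place `⟨n, M⟩`
    let y : ℕ → ℕ := Function.update x (Nat.pair n M) (x (Nat.pair n M) + 1)
    have hy : ∀ i < M, y i = x i := by
      intro i hi
      have h1 : i ≠ Nat.pair n M := by
        have := Nat.right_le_pair n M
        omega
      exact Function.update_of_ne h1 _ _
    have hyO : y ∉ O := interior_subset (hM y hy)
    apply hyO
    obtain ⟨s, hs⟩ := hx M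
    -- the oracle does not change
    have hJy : J y = J x := by
      change bjoin b (amal old c S y) = bjoin b (amal old c S x)
      have h1 : amal old c S y = amal old c S x := by
        funext m
        unfold amal
        by_cases hm : m.unpair.1 ∈ S
        · rw [if_pos hm, if_pos hm]
          have hmn : m.unpair.1 ≠ n := by
            rintro rfl
            exact hnS hm
          have h2 : ∀ k, y (Nat.pair m.unpair.1 k) = x (Nat.pair m.unpair.1 k) := by
            intro k
            refine Function.update_of_ne ?_ _ _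
            intro h3
            exact hmn (Nat.pair_eq_pair.1 h3).1
          unfold col
          by_cases hmo : m.unpair.1 ∈ old
          · rw [if_pos hmo, if_pos hmo, h2]
          · rw [if_neg hmo, if_neg hmo, h2]
        · rw [if_neg hm, if_neg hm]
      rw [h1]
    have hcy : (col old c y n M).toNat ≠ (col old c x n M).toNat := by
      unfold col
      rw [if_neg hn, if_neg hn]
      have h2 : y (Nat.pair n M) = x (Nat.pair n M) + 1 := Function.update_self _ _ _
      rw [h2]
      rcases Nat.mod_two_eq_zero_or_one (x (Nat.pair n M)) with h3 | h3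
      · have h4 : (x (Nat.pair n M) + 1) % 2 = 1 := by omega
        simp [h3, h4]
      · have h4 : (x (Nat.pair n M) + 1) % 2 = 0 := by omega
        simp [h3, h4]
    refine Set.mem_iUnion.2 ⟨(M, s, (col old c x n M).toNat), ?_, hcy⟩
    change U (J y) e M s _
    rw [hJy]
    exact hs

end Pool.Agent.Lib.MP_34f7ca_lc
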