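import Pool.Agent.Lib.MP_34f7ca_lc.Defs

/-! # MP_34f7ca_lc, module IDEAL: ideals of reals -/

set_option autoImplicit false

namespace Pool.Agent.Lib.MP_34f7ca_lc

open Pool.Agent.GammaZero Pool.Agent.Mart Cardinal

theorem IdealMem.mono {S T : Set (ℕ → Bool)} {z : ℕ → Bool} (h : IdealMem S z) (hST : S ⊆ T) :
    IdealMem T z :=
  Nat.RecursiveIn.subst h fun g hg => Nat.RecursiveIn.oracle g (Set.image_mono hST hg)

theorem IdealMem.of_mem {S : Set (ℕ → Bool)} {z : ℕ → Bool} (h : z ∈ S) : IdealMem S z :=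
  Nat.RecursiveIn.oracle _ ⟨z, h, rfl⟩

theorem IdealMem.trans {S T : Set (ℕ → Bool)} {z : ℕ → Bool} (h : IdealMem S z)
    (hST : ∀ s ∈ S, IdealMem T s) : IdealMem T z :=
  Nat.RecursiveIn.subst h fun g hg => by
    obtain ⟨s, hs, rfl⟩ := hg
    exact hST s hs

theorem IdealMem.of_tr {S : Set (ℕ → Bool)} {z s : ℕ → Bool} (h : IdealMem S s) (hz : TR z s) :
    IdealMem S z :=
  Nat.RecursiveIn.subst hz fun g hg => by
    rw [Set.mem_singleton_iff] at hg
    rw [hg]
    exact h

theorem idealMem_singleton {b z : ℕ → Bool} : IdealMem {b} z ↔ TR z b := by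
  unfold IdealMem TR
  rw [Set.image_singleton]

/-- every derivation uses only finitely many oracles -/
private theorem finite_oracles {O : Set (ℕ →. ℕ)} {g : ℕ →. ℕ} (h : Nat.RecursiveIn O g) :
    ∃ O' : Set (ℕ →. ℕ), O' ⊆ O ∧ O'.Finite ∧ Nat.RecursiveIn O' g := by
  have hm : ∀ {A B : Set (ℕ →. ℕ)} {k : ℕ →. ℕ}, A ⊆ B → Nat.RecursiveIn A k →
      Nat.RecursiveIn B k := fun hAB hk => hk.subst fun g hg => .oracle g (hAB hg)
  induction h with
  | zero => exact ⟨∅, Set.empty_subset _, Set.finite_empty, .zero⟩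
  | succ => exact ⟨∅, Set.empty_subset _, Set.finite_empty, .succ⟩
  | left => exact ⟨∅, Set.empty_subset _, Set.finite_empty, .left⟩
  | right => exact ⟨∅, Set.empty_subset _, Set.finite_empty, .right⟩
  | oracle g hg =>
    exact ⟨{g}, Set.singleton_subset_iff.2 hg, Set.finite_singleton g, .oracle g rfl⟩
  | pair _ _ ih1 ih2 =>
    obtain ⟨A, h1, h2, h3⟩ := ih1
    obtain ⟨B, h4, h5, h6⟩ := ih2
    exact ⟨A ∪ B, Set.union_subset h1 h4, h2.union h5,
      .pair (hm Set.subset_union_left h3) (hm Set.subset_union_right h6)⟩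
  | comp _ _ ih1 ih2 =>
    obtain ⟨A, h1, h2, h3⟩ := ih1
    obtain ⟨B, h4, h5, h6⟩ := ih2
    exact ⟨A ∪ B, Set.union_subset h1 h4, h2.union h5,
      .comp (hm Set.subset_union_left h3) (hm Set.subset_union_right h6)⟩
  | prec _ _ ih1 ih2 =>
    obtain ⟨A, h1, h2, h3⟩ := ih1
    obtain ⟨B, h4, h5, h6⟩ := ih2
    exact ⟨A ∪ B, Set.union_subset h1 h4, h2.union h5,
      .prec (hm Set.subset_union_left h3) (hm Set.subset_union_right h6)⟩
  | rfind _ ih =>
    obtain ⟨A, h1, h2, h3⟩ := ih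
    exact ⟨A, h1, h2, .rfind h3⟩

/-- compactness for images -/
theorem IdealMem.finite_image {P : Type} {S : Set P} {f : P → ℕ → Bool} {z : ℕ → Bool}
    (h : IdealMem (f '' S) z) :
    ∃ F : Finset P, (F : Set P) ⊆ S ∧ IdealMem (f '' (F : Set P)) z := by
  classical
  obtain ⟨O, h1, h2, h3⟩ := finite_oracles h
  rw [Set.image_image] at h1
  have h4 : ((h2.toFinset : Finset (ℕ →. ℕ)) : Set (ℕ →. ℕ)) ⊆ (fun x => orc (f x)) '' S := by
    rw [h2.coe_toFinset]
    exact h1
  obtain ⟨F, hF, hO⟩ := Finset.subset_set_image_iff.1 h4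
  refine ⟨F, hF, ?_⟩
  refine h3.subst fun g hg => Nat.RecursiveIn.oracle g ?_
  have h5 : g ∈ h2.toFinset := h2.mem_toFinset.2 hg
  rw [← hO] at h5
  obtain ⟨x, hx, rfl⟩ := Finset.mem_image.1 h5
  exact ⟨f x, ⟨x, hx, rfl⟩, rfl⟩

/-- compactness: only finitely many members are used -/
theorem IdealMem.finite {S : Set (ℕ → Bool)} {z : ℕ → Bool} (h : IdealMem S z) :
    ∃ F : Finset (ℕ → Bool), (F : Set (ℕ → Bool)) ⊆ S ∧ IdealMem (F : Set (ℕ → Bool)) z := by
  have h' : IdealMem ((fun s : ℕ → Bool => s) '' S) z := by rwa [Set.image_id']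
  obtain ⟨F, h1, h2⟩ := h'.finite_image
  rw [Set.image_id'] at h2
  exact ⟨F, h1, h2⟩

/-- from the calculus to ideals -/
theorem idealMem_of_ci {S : Set (ℕ → Bool)} {z : ℕ → Bool}
    (h : CI (orc '' S) (fun n : ℕ => (z n).toNat)) : IdealMem S z := by
  obtain ⟨F, hF, hFe⟩ := h
  have : F = fun n => (z n).toNat := funext fun n => hFe n
  rw [this] at hF
  exact hF

private theorem ideal_bjoin (A B : ℕ → Bool) :
    IdealMem ({A, B} : Set (ℕ → Bool)) (bjoin A B) := by
  have hA : Nat.RecursiveIn (orc '' ({A, B} : Set (ℕ → Bool))) (orc A) :=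
    .oracle _ ⟨A, Or.inl rfl, rfl⟩
  have hB : Nat.RecursiveIn (orc '' ({A, B} : Set (ℕ → Bool))) (orc B) :=
    .oracle _ ⟨B, Or.inr rfl, rfl⟩
  refine idealMem_of_ci ?_
  refine (CI.ite (DI.eq (CI.mod (CI.of_computable Computable.id) (CI.const 2)) (CI.const 0))
    (ci_orc_comp hA (CI.div (CI.of_computable Computable.id) (CI.const 2)))
    (ci_orc_comp hB (CI.div (CI.of_computable Computable.id) (CI.const 2)))).congr fun n => ?_
  unfold bjoin
  simp only [id]
  split_ifs <;> rfl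

/-- joins of finite families -/
theorem exists_join {P : Type} (f : P → ℕ → Bool) (F : Finset P) :
    ∃ b : ℕ → Bool, (∀ y ∈ F, TR (f y) b) ∧ IdealMem (f '' (F : Set P)) b := by
  classical
  induction F using Finset.induction_on with
  | empty =>
    refine ⟨fun _ => false, fun y hy => absurd hy (Finset.notMem_empty y), ?_⟩
    have h1 : Nat.RecursiveIn (orc '' (f '' ((∅ : Finset P) : Set P)))
        (fun n => Part.some ((fun _ : ℕ => 0) n)) :=
      rin_of_computable (Computable.const 0)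
    exact h1
  | insert a F _ ih =>
    obtain ⟨b, hb1, hb2⟩ := ih
    refine ⟨bjoin (f a) b, ?_, ?_⟩
    · intro y hy
      rcases Finset.mem_insert.1 hy with rfl | hy
      · exact tr_bjoin_left _ _
      · exact (hb1 y hy).trans (tr_bjoin_right _ _)
    · refine (ideal_bjoin (f a) b).trans ?_
      intro s hs
      rcases hs with rfl | hs
      · exact IdealMem.of_mem ⟨a, by simp, rfl⟩
      · rw [Set.mem_singleton_iff] at hs
        rw [hs]
        exact hb2.mono (Set.image_mono (by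
          intro y hy
          simp only [Finset.coe_insert, Set.mem_insert_iff]
          exact Or.inr hy))

/-- a real computes only countably many reals -/
theorem countable_below (b : ℕ → Bool) : {z : ℕ → Bool | TR z b}.Countable := by
  have hex : ∀ z : {z : ℕ → Bool | TR z b}, ∃ e, Idx b e z.1 := fun z => tr_iff_idx.1 z.2
  choose e he using hex
  refine Set.countable_iff_exists_injective.2 ⟨e, ?_⟩
  intro z z' hzz
  apply Subtype.ext
  funext k
  obtain ⟨t, ht⟩ := he z k
  obtain ⟨t', ht'⟩ := he z' k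
  rw [hzz] at ht
  have h1 := ht.unique ht'
  cases h2 : z.1 k <;> cases h3 : z'.1 k <;> simp_all

end Pool.Agent.Lib.MP_34f7ca_lc
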