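import Pool.Agent.Lib.MP_34f7ca_lc.Defs

/-!
# MP_34f7ca_lc, module MYC

Mycielski's theorem for the Baire space: a perfect set of mutually generic points.
-/

set_option autoImplicit false

namespace Pool.Agent.Lib.MP_34f7ca_lc

open Pool.Agent.GammaZero Pool.Agent.Mart Cardinal

/-- the word of the first `k` bits -/
private def wd (u : ℕ → Bool) (k : ℕ) : List Bool := (List.range k).map u

private theorem wd_length (u : ℕ → Bool) (k : ℕ) : (wd u k).length = k := by
  simp [wd]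

private theorem wd_congr {u v : ℕ → Bool} {k : ℕ} (h : ∀ i < k, u i = v i) : wd u k = wd v k := by
  unfold wd
  apply List.map_congr_left
  intro i hi
  exact h i (List.mem_range.1 hi)

private theorem wd_getD (u : ℕ → Bool) {k i : ℕ} (h : i < k) : (wd u k).getD i false = u i := by
  simp [wd, List.getD, h]

private def phi (g : List Bool → ℕ) (u : ℕ → Bool) : ℕ → ℕ := fun k => g (wd u k)

private theorem isOpenMap_pair {ι : Type} [DecidableEq ι] {i j : ι} (hij : i ≠ j) :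
    IsOpenMap fun f : ι → ℕ → ℕ => (f i, f j) := by
  apply IsOpenMap.of_sections
  intro f
  refine ⟨fun p => Function.update (Function.update f i p.1) j p.2, ?_, ?_, ?_⟩
  · apply Continuous.continuousAt
    have h1 : Continuous fun p : (ℕ → ℕ) × (ℕ → ℕ) => Function.update f i p.1 :=
      continuous_const.update i continuous_fst
    exact h1.update j continuous_snd
  · simp
  · intro p
    simp [Function.update_of_ne hij]

private theorem exists_cyl {U : Set ((ℕ → ℕ) × (ℕ → ℕ))} (hU : IsOpen U) {a b : ℕ → ℕ}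
    (h : (a, b) ∈ U) : ∃ N : ℕ, ∀ x y : ℕ → ℕ, (∀ k < N, x k = a k) → (∀ k < N, y k = b k) →
      (x, y) ∈ U := by
  have cyl : ∀ {W : Set (ℕ → ℕ)}, IsOpen W → ∀ {c : ℕ → ℕ}, c ∈ W →
      ∃ N : ℕ, ∀ x : ℕ → ℕ, (∀ k < N, x k = c k) → x ∈ W := by
    intro W hW c hc
    rw [isOpen_pi_iff] at hW
    obtain ⟨I, u, h1, h2⟩ := hW c hc
    refine ⟨I.sup id + 1, fun x hx => h2 ?_⟩
    intro k hk
    have : k < I.sup id + 1 := Nat.lt_succ_of_le (Finset.le_sup (f := id) hk)
    rw [hx k this]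
    exact (h1 k hk).2
  obtain ⟨W1, W2, hW1, hW2, ha, hb, hsub⟩ := isOpen_prod_iff.1 hU a b h
  obtain ⟨N1, h1⟩ := cyl hW1 ha
  obtain ⟨N2, h2⟩ := cyl hW2 hb
  refine ⟨max N1 N2, fun x y hx hy => hsub ⟨h1 x fun k hk => hx k ?_, h2 y fun k hk => hy k ?_⟩⟩
  · exact lt_of_lt_of_le hk (le_max_left _ _)
  · exact lt_of_lt_of_le hk (le_max_right _ _)

private theorem fin_family {ι : Type} [Finite ι] [DecidableEq ι]
    {U : Set ((ℕ → ℕ) × (ℕ → ℕ))} (hUo : IsOpen U) (hUd : Dense U) (x0 : ι → ℕ → ℕ) (m0 : ℕ) :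
    ∃ f : ι → ℕ → ℕ, (∀ i, ∀ k < m0, f i k = x0 i k) ∧ ∀ i j, i ≠ j → (f i, f j) ∈ U := by
  classical
  have hd : Dense (⋂ p : {p : ι × ι // p.1 ≠ p.2}, {f : ι → ℕ → ℕ | (f p.1.1, f p.1.2) ∈ U}) := by
    apply dense_iInter_of_isOpen
    · intro p
      have hc : Continuous fun f : ι → ℕ → ℕ => (f p.1.1, f p.1.2) := by fun_prop
      exact hUo.preimage hc
    · intro p
      exact hUd.preimage (isOpenMap_pair p.2)
  have hO : IsOpen {f : ι → ℕ → ℕ | ∀ i, ∀ k < m0, f i k = x0 i k} := by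
    have : {f : ι → ℕ → ℕ | ∀ i, ∀ k < m0, f i k = x0 i k} =
        ⋂ i : ι, ⋂ k : Fin m0, {f : ι → ℕ → ℕ | f i k = x0 i k} := by
      ext f
      simp only [Set.mem_ofPred_eq, Set.mem_iInter]
      exact ⟨fun h i k => h i k k.2, fun h i k hk => h i ⟨k, hk⟩⟩
    rw [this]
    refine isOpen_iInter_of_finite fun i => isOpen_iInter_of_finite fun k => ?_
    have hc : Continuous fun f : ι → ℕ → ℕ => f i k := by fun_prop
    exact (isOpen_discrete {x0 i k}).preimage hc
  obtain ⟨f, hf1, hf2⟩ := hd.inter_open_nonempty _ hO ⟨x0, fun i k _ => rfl⟩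
  refine ⟨f, hf1, fun i j hij => ?_⟩
  have := Set.mem_iInter.1 hf2 ⟨(i, j), hij⟩
  exact this

/-- the requirement sets -/
private def Dset (U : Set ((ℕ → ℕ) × (ℕ → ℕ))) (m : ℕ) : Set (List Bool → ℕ) :=
  {g | ∃ N : ℕ, ∀ u v : ℕ → Bool, (∃ i < m, u i ≠ v i) → ∀ x y : ℕ → ℕ,
    (∀ k < N, x k = phi g u k) → (∀ k < N, y k = phi g v k) → (x, y) ∈ U}

private theorem finite_words (N : ℕ) : {w : List Bool | w.length < N}.Finite :=
  List.finite_length_lt Bool N

private theorem isOpen_Dset (U : Set ((ℕ → ℕ) × (ℕ → ℕ))) (m : ℕ) : IsOpen (Dset U m) := by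
  rw [isOpen_pi_iff]
  rintro g ⟨N, hN⟩
  refine ⟨(finite_words N).toFinset, fun w => {g w}, fun w _ => ⟨isOpen_discrete _, rfl⟩, ?_⟩
  intro g' hg'
  have key : ∀ (u : ℕ → Bool), ∀ k < N, phi g' u k = phi g u k := by
    intro u k hk
    have := hg' (wd u k) (by simp [wd_length, hk])
    exact this
  refine ⟨N, fun u v huv x y hx hy => hN u v huv x y ?_ ?_⟩
  · intro k hk; rw [hx k hk, key u k hk]
  · intro k hk; rw [hy k hk, key v k hk]

private theorem dense_Dset {U : Set ((ℕ → ℕ) × (ℕ → ℕ))} (hUo : IsOpen U) (hUd : Dense U)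
    (m : ℕ) : Dense (Dset U m) := by
  classical
  rw [dense_iff_inter_open]
  rintro O hO ⟨g0, hg0⟩
  rw [isOpen_pi_iff] at hO
  obtain ⟨F, u0, h1, h2⟩ := hO g0 hg0
  let m0 : ℕ := max m (F.sup List.length + 1)
  have hm : m ≤ m0 := le_max_left _ _
  have hF : ∀ w ∈ F, w.length < m0 := by
    intro w hw
    exact lt_of_lt_of_le (Nat.lt_succ_of_le (Finset.le_sup (f := List.length) hw))
      (le_max_right _ _)
  let ex : (Fin m0 → Bool) → ℕ → Bool := fun i n => if h : n < m0 then i ⟨n, h⟩ else false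
  obtain ⟨f, hf1, hf2⟩ := fin_family (ι := Fin m0 → Bool) hUo hUd (fun i => phi g0 (ex i)) m0
  let g : List Bool → ℕ := fun w =>
    if w.length < m0 then g0 w else f (fun i => w.getD i false) w.length
  have hphi : ∀ u : ℕ → Bool, phi g u = f (fun i : Fin m0 => u i) := by
    intro u
    funext k
    by_cases hk : k < m0
    · have e1 : phi g u k = g0 (wd u k) := by
        simp only [phi, g, wd_length, if_pos hk]
      have e2 : f (fun i : Fin m0 => u i) k = g0 (wd (ex fun i : Fin m0 => u i) k) :=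
        hf1 (fun i : Fin m0 => u i) k hk
      rw [e1, e2]
      congr 1
      apply wd_congr
      intro i hi
      have : i < m0 := lt_trans hi hk
      simp [ex, this]
    · have e1 : phi g u k = f (fun i : Fin m0 => (wd u k).getD i false) k := by
        simp only [phi, g, wd_length, if_neg hk]
      rw [e1]
      congr 1
      funext i
      exact wd_getD u (lt_of_lt_of_le i.2 (not_lt.1 hk))
  have hgO : g ∈ O := by
    apply h2
    intro w hw
    have hw' : w.length < m0 := hF w hw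
    have : g w = g0 w := by simp only [g, if_pos hw']
    rw [this]
    exact (h1 w hw).2
  refine ⟨g, hgO, ?_⟩
  have hN : ∀ p : (Fin m0 → Bool) × (Fin m0 → Bool), ∃ N : ℕ, p.1 ≠ p.2 →
      ∀ x y : ℕ → ℕ, (∀ k < N, x k = f p.1 k) → (∀ k < N, y k = f p.2 k) → (x, y) ∈ U := by
    intro p
    by_cases hp : p.1 = p.2
    · exact ⟨0, fun h => absurd hp h⟩
    · obtain ⟨N, hN⟩ := exists_cyl hUo (hf2 p.1 p.2 hp)
      exact ⟨N, fun _ => hN⟩
  choose N hN using hN
  refine ⟨Finset.univ.sup N, ?_⟩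
  rintro u v ⟨i, him, hi⟩ x y hx hy
  have hne : (fun i : Fin m0 => u i) ≠ fun i : Fin m0 => v i := by
    intro h
    exact hi (congrFun h ⟨i, lt_of_lt_of_le him hm⟩)
  have hle : N (fun i : Fin m0 => u i, fun i : Fin m0 => v i) ≤ Finset.univ.sup N :=
    Finset.le_sup (Finset.mem_univ _)
  refine hN (fun i : Fin m0 => u i, fun i : Fin m0 => v i) hne x y ?_ ?_
  · intro k hk
    rw [hx k (lt_of_lt_of_le hk hle), hphi]
  · intro k hk
    rw [hy k (lt_of_lt_of_le hk hle), hphi]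

theorem mycielski {M : Set ((ℕ → ℕ) × (ℕ → ℕ))} (hM : IsMeagre M) {Q : Set (ℕ → ℕ)}
    (hQ : IsMeagre Q) :
    ∃ φ : (ℕ → Bool) → (ℕ → ℕ), (∀ u v, u ≠ v → (φ u, φ v) ∉ M) ∧ ∀ u, φ u ∉ Q := by
  have hM' : IsMeagre (M ∪ Prod.fst ⁻¹' Q) :=
    hM.union (hQ.preimage_of_isOpenMap continuous_fst isOpenMap_fst)
  have hres : (M ∪ Prod.fst ⁻¹' Q)ᶜ ∈ residual ((ℕ → ℕ) × (ℕ → ℕ)) := hM'
  obtain ⟨S, hSo, hSd, hSc, hS⟩ := mem_residual_iff.1 hres
  have : Countable S := hSc.to_subtype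
  have hd : Dense (⋂ p : S × ℕ, Dset p.1.1 p.2) := by
    apply dense_iInter_of_isOpen
    · intro p
      exact isOpen_Dset _ _
    · intro p
      exact dense_Dset (hSo _ p.1.2) (hSd _ p.1.2) _
  obtain ⟨g, hg⟩ := hd.nonempty
  have key : ∀ u v : ℕ → Bool, u ≠ v → (phi g u, phi g v) ∉ M ∪ Prod.fst ⁻¹' Q := by
    intro u v huv
    obtain ⟨i, hi⟩ := Function.ne_iff.1 huv
    apply hS
    intro U hU
    obtain ⟨N, hN⟩ := Set.mem_iInter.1 hg (⟨U, hU⟩, i + 1)
    exact hN u v ⟨i, Nat.lt_succ_self i, hi⟩ _ _ (fun k _ => rfl) fun k _ => rfl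
  refine ⟨phi g, fun u v huv h => key u v huv (Or.inl h), fun u h => ?_⟩
  have hne : u ≠ fun k => !(u k) := by
    intro h'
    have := congrFun h' 0
    simp at this
  exact key u _ hne (Or.inr h)

end Pool.Agent.Lib.MP_34f7ca_lc
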