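import Pool.Agent.Lib.MP_34f7ca_lc.STEP

/-! # MP_34f7ca_lc, module REC: the transfinite recursion -/

set_option autoImplicit false

namespace Pool.Agent.Lib.MP_34f7ca_lc

open Pool.Agent.GammaZero Pool.Agent.Mart Cardinal

private theorem inv_congr {P : Type} [PartialOrder P] {D : Set P} {f g : P → ℕ → Bool}
    (h : ∀ y ∈ D, g y = f y) (hf : Inv D f) : Inv D g := by
  refine ⟨?_, ?_⟩
  · intro y hy y' hy' hyy
    rw [h y hy, h y' hy']
    exact hf.mono y hy y' hy' hyy
  · intro p z hz hI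
    rw [h z hz] at hI
    have himg : g '' {y | y ∈ D ∧ y ≤ p} = f '' {y | y ∈ D ∧ y ≤ p} :=
      Set.image_congr fun y hy => h y hy.1
    rw [himg] at hI
    exact hf.ideal p z hz hI

private theorem inv_union {P : Type} [PartialOrder P] {W : Type} [LinearOrder W]
    {ρ : P → W} (hρ : Monotone ρ) {f : P → ℕ → Bool} {D : Set P}
    (hD : ∀ y ∈ D, Inv {p | ρ p ≤ ρ y} f) : Inv D f := by
  classical
  refine ⟨?_, ?_⟩
  · intro y _ y' hy' hyy
    exact (hD y' hy').mono y (hρ hyy) y' (le_refl (ρ y')) hyy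
  · intro p z hz hI
    obtain ⟨F, hF, hFI⟩ := hI.finite_image
    obtain ⟨m, hm, hmax⟩ := Finset.exists_max_image (insert z F) ρ ⟨z, Finset.mem_insert_self z F⟩
    have hmD : m ∈ D := by
      rcases Finset.mem_insert.1 hm with rfl | hm
      · exact hz
      · exact (hF hm).1
    refine (hD m hmD).ideal p z (hmax z (Finset.mem_insert_self z F)) (hFI.mono ?_)
    refine Set.image_mono fun y hy => ⟨?_, (hF hy).2⟩
    exact hmax y (Finset.mem_insert_of_mem hy)

theorem embeds_of_rank {P : Type} [PartialOrder P] {κ : Cardinal.{0}} (hκ : CovMeagre κ)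
    (hloc : ∀ p : P, (Set.Iic p).Countable) {W : Type} [LinearOrder W] [WellFoundedLT W]
    (ρ : P → W) (hρ : Monotone ρ) (hfib : ∀ w, {p | ρ p = w}.Countable)
    (hcard : ∀ w, #{p | ρ p < w} < 𝔠)
    (hN : ∀ w, #{y | ρ y < w ∧ ∃ q, ρ q = w ∧ Compat y q} < κ ∨
      #{y | ρ y < w ∧ ∃ q, ρ q = w ∧ Compat y q} ≤ ℵ₀) :
    Embeds P := by
  classical
  let Good : W → (P → ℕ → Bool) → (P → ℕ → Bool) → Prop := fun w h g =>
    (∀ y, ρ y < w → g y = h y) ∧ Inv {p | ρ p ≤ w} g
  let wf : WellFounded (fun a b : W => a < b) := wellFounded_lt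
  let stepF : (w : W) → ((v : W) → v < w → P → ℕ → Bool) → P → ℕ → Bool := fun w ih =>
    if hg : ∃ g, Good w (fun p => if hp : ρ p < w then ih (ρ p) hp p else fun _ => false) g
    then hg.choose else fun _ _ => false
  let F : W → P → ℕ → Bool := wf.fix stepF
  let f : P → ℕ → Bool := fun p => F (ρ p) p
  have hFeq : ∀ w, F w = if hg : ∃ g, Good w (fun p => if _ : ρ p < w then f p else
      fun _ => false) g then hg.choose else fun _ _ => false := fun w => wf.fix_eq stepF w
  have key : ∀ w, Inv {p | ρ p ≤ w} f := by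
    intro w
    induction w using wf.induction with
    | _ w ih =>
    have h1 : Inv {p | ρ p < w} f := by
      refine inv_union hρ fun y hy => ?_
      exact ih (ρ y) hy
    let h : P → ℕ → Bool := fun p => if _ : ρ p < w then f p else fun _ => false
    have hh : ∀ p ∈ {p | ρ p < w}, h p = f p := fun p hp => dif_pos hp
    have h2 : Inv {p | ρ p < w} h := inv_congr hh h1
    have hdiff : ({p | ρ p ≤ w} \ {p | ρ p < w} : Set P) = {p | ρ p = w} := by
      ext p
      constructor
      · rintro ⟨h3, h4⟩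
        exact le_antisymm h3 (not_lt.1 h4)
      · intro h3
        have h3' : ρ p = w := h3
        exact ⟨h3'.le, fun h4 => absurd h3' (ne_of_lt h4)⟩
    have hNw : {y : P | y ∈ {p | ρ p < w} ∧ ∃ q ∈ ({p | ρ p ≤ w} \ {p | ρ p < w} : Set P),
        Compat y q} = {y | ρ y < w ∧ ∃ q, ρ q = w ∧ Compat y q} := by
      rw [hdiff]
      rfl
    obtain ⟨g, hg1, hg2⟩ := step (D := {p | ρ p < w}) (D' := {p | ρ p ≤ w}) hκ hloc
      (fun p hp => le_of_lt hp)
      (fun y hy x hxy => lt_of_le_of_lt (hρ hxy) hy) (fun y hy x hxy => le_trans (hρ hxy) hy)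
      (by rw [hdiff]; exact hfib w) (hcard w) (by rw [hNw]; exact hN w) h2
    have hex : ∃ g, Good w h g := ⟨g, fun y hy => hg1 y hy, hg2⟩
    have hFw : F w = hex.choose := by
      rw [hFeq w]
      exact dif_pos hex
    have hs := hex.choose_spec
    rw [← hFw] at hs
    refine inv_congr ?_ hs.2
    intro y hy
    rcases lt_or_eq_of_le (show ρ y ≤ w from hy) with h3 | h3
    · have h4 := hs.1 y h3
      rw [h4]
      exact (hh y h3).symm
    · change F (ρ y) y = F w y
      rw [h3]
  have hInv : Inv Set.univ f := inv_union hρ fun y _ => key (ρ y)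
  refine ⟨f, fun x y => ⟨fun h => hInv.mono x trivial y trivial h, fun h => ?_⟩⟩
  refine hInv.ideal y x trivial (IdealMem.of_tr (s := f y) (IdealMem.of_mem ?_) h)
  exact ⟨y, ⟨trivial, le_rfl⟩, rfl⟩

end Pool.Agent.Lib.MP_34f7ca_lc
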