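import Pool.Agent.Lib.MP_34f7ca_lc.IDEAL
import Pool.Agent.Lib.MP_34f7ca_lc.COL

/-! # MP_34f7ca_lc, module SEARCH: the oracle search -/

set_option autoImplicit false

namespace Pool.Agent.Lib.MP_34f7ca_lc

open Pool.Agent.GammaZero Pool.Agent.Mart Encodable

/-- a finite table is computable -/
private theorem ci_tab (O : Set (ℕ →. ℕ)) (l : List ℕ) : CI O (fun k : ℕ => l.getD k 0) :=
  CI.of_computable ((Primrec.list_getD 0).comp (Primrec.const l) Primrec.id).to_comp

/-- a predicate with bounded support is decidable -/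
private theorem di_bounded (O : Set (ℕ →. ℕ)) (p : ℕ → Prop) (M : ℕ) (hp : ∀ n, p n → n < M) :
    DI O (fun n : ℕ => p n) := by
  classical
  refine (DI.eq (ci_tab O ((List.range M).map fun n => if p n then 1 else 0))
    (CI.const 1)).of_iff fun n => ?_
  rw [List.getD_eq_getElem?_getD]
  by_cases hn : n < M
  · by_cases h : p n
    · simp [hn, h]
    · simp [hn, h]
  · have h1 : ¬ p n := fun h => hn (hp n h)
    simp [hn, h1]

/-- a function with bounded support is computable -/
private theorem ci_bounded (O : Set (ℕ →. ℕ)) (f : ℕ → ℕ) (M : ℕ) (hf : ∀ n, M ≤ n → f n = 0) :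
    CI O f := by
  refine (ci_tab O ((List.range M).map f)).congr fun n => ?_
  rw [List.getD_eq_getElem?_getD]
  by_cases hn : n < M
  · simp [hn]
  · simp [hn, hf n (not_lt.1 hn)]

theorem tr_col_old {old : Set ℕ} (c : ℕ → ℕ → Bool) (x : ℕ → ℕ) {n : ℕ} (hn : n ∈ old) :
    TR (col old c x n) (c n) := by
  rw [tr_iff_ci]
  set L := (dl (x (Nat.pair n 0))).length with hL
  refine (CI.ite (DI.lt (CI.of_computable Computable.id) (CI.const L))
    (ci_tab _ ((List.range L).map fun k => (col old c x n k).toNat))
    (ci_orc_comp (TR.refl (c n)) (CI.of_computable Computable.id))).congr fun k => ?_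
  simp only [id]
  by_cases hk : k < L
  · rw [if_pos hk, List.getD_eq_getElem?_getD]
    simp [hk]
  · rw [if_neg hk]
    unfold col
    rw [if_pos hn]
    have h1 : (dl (x (Nat.pair n 0)))[k]? = none := List.getElem?_eq_none (not_lt.1 hk)
    rw [h1]
    rfl

/-! ### strings -/

private theorem ext_computable : Computable fun p : ℕ × ℕ => ext (dl p.1) p.2 := by
  have h1 : Computable fun p : ℕ × ℕ => (dl p.1)[p.2]? :=
    Computable.list_getElem?.comp (dl_computable.comp Computable.fst) Computable.snd
  exact Computable.option_getD h1 (Computable.const false)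

private theorem ci_ext (O : Set (ℕ →. ℕ)) : CI O fun p : ℕ × ℕ => (ext (dl p.1) p.2).toNat :=
  CI.of_computable ((Primrec.dom_bool Bool.toNat).to_comp.comp ext_computable)

private theorem app_computable : Computable₂ fun (c b : ℕ) => encode (dl c ++ [decide (b = 1)]) := by
  have h3 : Computable fun p : ℕ × ℕ => decide (p.2 = 1) :=
    ((Primrec.eq.comp Primrec.snd (Primrec.const 1)).decide).to_comp
  have h4 : Computable fun p : ℕ × ℕ => dl p.1 := dl_computable.comp Computable.fst
  exact Computable.encode.comp (Computable.list_append.comp h4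
    (Computable.list_cons.comp h3 (Computable.const [])))

private theorem dec_toNat (β : Bool) : decide (β.toNat = 1) = β := by cases β <;> rfl

private theorem ci_preE (O : Set (ℕ →. ℕ)) :
    CI O (fun p : ℕ × ℕ => encode (pre (ext (dl p.1)) p.2)) := by
  have h1 : CI O (fun p : ℕ × ℕ × ℕ =>
      encode (dl p.2.2 ++ [decide ((ext (dl p.1) p.2.1).toNat = 1)])) :=
    CI.comp₂ (h := fun c b => encode (dl c ++ [decide (b = 1)])) app_computable
      (CI.of_computable (Computable.snd.comp Computable.snd))
      (CI.app2 (ci_ext O) (CI.of_computable Computable.fst)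
        (CI.of_computable (Computable.fst.comp Computable.snd)))
  have h2 := CI.natRec (CI.const (O := O) (α := ℕ) (encode ([] : List Bool))) h1
  refine h2.congr fun p => ?_
  obtain ⟨a, n⟩ := p
  show encode (pre (ext (dl a)) n) = Nat.rec (encode ([] : List Bool)) (fun y ih =>
      encode (dl ih ++ [decide ((ext (dl a) y).toNat = 1)])) n
  induction n with
  | zero => rfl
  | succ n ih =>
    rw [pre_succ]
    show _ = encode (dl (Nat.rec (encode ([] : List Bool)) (fun y ih =>
      encode (dl ih ++ [decide ((ext (dl a) y).toNat = 1)])) n) ++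
        [decide ((ext (dl a) n).toNat = 1)])
    rw [← ih, dl_encode, dec_toNat]

private theorem ci_resE (O : Set (ℕ →. ℕ)) (e : ℕ) :
    CI O (fun q : ℕ × ℕ × ℕ => res (ext (dl q.1)) e q.2.1 q.2.2) := by
  refine CI.computable_comp evN_computable (CI.npair (CI.npair (CI.of_computable ?_)
    (CI.const e)) (CI.npair (CI.app2 (ci_preE O) (CI.of_computable Computable.fst)
      (CI.of_computable ?_)) (CI.of_computable (Computable.fst.comp Computable.snd))))
  · exact Computable.snd.comp (Computable.unpair.comp (Computable.snd.comp Computable.snd))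
  · exact Computable.fst.comp (Computable.unpair.comp (Computable.snd.comp Computable.snd))

/-- `U` for strings, arguments `((a, k), (t, v))` -/
private theorem di_UE (O : Set (ℕ →. ℕ)) (e : ℕ) :
    DI O (fun p : (ℕ × ℕ) × ℕ × ℕ => U (ext (dl p.1.1)) e p.1.2 p.2.1 p.2.2) := by
  have h1 : DI O (fun q : (((ℕ × ℕ) × ℕ × ℕ) × ℕ) × ℕ =>
      res (ext (dl q.1.1.1.1)) e q.1.1.1.2 q.2 = 0) := by
    refine DI.eq (CI.app3 (ci_resE O e) (CI.of_computable ?_) (CI.of_computable ?_)
      (CI.of_computable Computable.snd)) (CI.const 0)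
    · exact Computable.fst.comp (Computable.fst.comp (Computable.fst.comp Computable.fst))
    · exact Computable.snd.comp (Computable.fst.comp (Computable.fst.comp Computable.fst))
  have h2 : DI O (fun q : ((ℕ × ℕ) × ℕ × ℕ) × ℕ =>
      ∀ s' < q.2, res (ext (dl q.1.1.1)) e q.1.1.2 s' = 0) :=
    DI.ball h1 (CI.of_computable Computable.snd)
  have h3 : DI O (fun q : ((ℕ × ℕ) × ℕ × ℕ) × ℕ =>
      res (ext (dl q.1.1.1)) e q.1.1.2 q.2 = q.1.2.2 + 1) := by
    refine DI.eq (CI.app3 (ci_resE O e) (CI.of_computable ?_) (CI.of_computable ?_)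
      (CI.of_computable Computable.snd)) (CI.add (CI.of_computable ?_) (CI.const 1))
    · exact Computable.fst.comp (Computable.fst.comp Computable.fst)
    · exact Computable.snd.comp (Computable.fst.comp Computable.fst)
    · exact Computable.snd.comp (Computable.snd.comp Computable.fst)
  exact DI.bex (h3.and h2) (CI.of_computable (Computable.fst.comp Computable.snd))

/-! ### the forced places -/

section Forced

variable (old : Set ℕ) (c : ℕ → ℕ → Bool) (S : Set ℕ) (M : ℕ)

/-- the places of `b ⊕ amal y` determined by `y | M` -/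
private def Forced (i : ℕ) : Prop :=
  i % 2 = 0 ∨ (i / 2).unpair.1 ∉ S ∨
    ((i / 2).unpair.1 ∈ old ∧ Nat.pair (i / 2).unpair.1 0 < M) ∨
    ((i / 2).unpair.1 ∉ old ∧ i / 2 < M)

private theorem ci_half (O : Set (ℕ →. ℕ)) : CI O (fun i : ℕ => i / 2) :=
  CI.div (CI.of_computable Computable.id) (CI.const 2)

private theorem comp_half1 : Computable fun i : ℕ => (i / 2).unpair.1 :=
  Computable.fst.comp (Computable.unpair.comp (Primrec.nat_div.comp Primrec.id
    (Primrec.const 2)).to_comp)

private theorem di_T1 (O : Set (ℕ →. ℕ)) :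
    DI O (fun n : ℕ => n ∈ old ∧ Nat.pair n 0 < M) :=
  di_bounded O _ M fun n h => lt_of_le_of_lt (Nat.left_le_pair n 0) h.2

private theorem di_forced (O : Set (ℕ →. ℕ)) (hS : CompSet S) :
    DI O (fun i : ℕ => Forced old S M i) := by
  have h1 : DI O (fun i : ℕ => i % 2 = 0) :=
    DI.eq (CI.mod (CI.of_computable Computable.id) (CI.const 2)) (CI.const 0)
  have h2 : DI O (fun i : ℕ => (i / 2).unpair.1 ∉ S) :=
    ((di_of_compSet hS).comp_computable comp_half1).not
  have h3 : DI O (fun i : ℕ => (i / 2).unpair.1 ∈ old ∧ Nat.pair (i / 2).unpair.1 0 < M) :=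
    (di_T1 old M O).comp_computable comp_half1
  have h4 : DI O (fun i : ℕ => (i / 2).unpair.1 ∉ old ∧ i / 2 < M) := by
    refine di_bounded O _ (2 * M + 2) fun n h => ?_
    have := h.2
    omega
  exact h1.or (h2.or (h3.or h4))

/-- the old columns with coded segment are computable from the oracles -/
private theorem ci_cols (O : Set (ℕ →. ℕ)) (x₀ : ℕ → ℕ)
    (hO : ∀ n ∈ S, n ∈ old → n < M → Nat.RecursiveIn O (orc (c n))) (m : ℕ) (hm : m ≤ M) :
    CI O (fun j : ℕ => by
      classical
      exact if j.unpair.1 < m ∧ j.unpair.1 ∈ S ∧ j.unpair.1 ∈ old then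
        (col old c x₀ j.unpair.1 j.unpair.2).toNat else 0) := by
  classical
  induction m with
  | zero =>
    refine (CI.const 0).congr fun j => ?_
    simp
  | succ m ih =>
    have hmm : CI O (fun j : ℕ => if m ∈ S ∧ m ∈ old then
        (col old c x₀ m j.unpair.2).toNat else 0) := by
      by_cases h : m ∈ S ∧ m ∈ old
      · have h1 : Nat.RecursiveIn O (orc (col old c x₀ m)) :=
          rin_singleton (tr_col_old c x₀ h.2) (hO m h.1 h.2 (by omega))
        refine (ci_orc_comp h1 (CI.right (CI.of_computable Computable.id))).congr fun j => ?_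
        rw [if_pos h]
        rfl
      · refine (CI.const 0).congr fun j => ?_
        rw [if_neg h]
    have hd : DI O (fun j : ℕ => j.unpair.1 = m) :=
      DI.eq (CI.left (CI.of_computable Computable.id)) (CI.const m)
    refine (CI.ite hd hmm (ih (by omega))).congr fun j => ?_
    by_cases hj : j.unpair.1 = m
    · rw [if_pos hj, hj]
      simp
    · rw [if_neg hj]
      have h1 : (j.unpair.1 < m + 1) = (j.unpair.1 < m) := by
        apply propext
        omega
      simp only [h1]

/-- the forced bits are computable from the oracles -/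
private theorem ci_forced_val (O : Set (ℕ →. ℕ)) (b : ℕ → Bool) (x₀ : ℕ → ℕ)
    (hb : Nat.RecursiveIn O (orc b))
    (hO : ∀ n ∈ S, n ∈ old → n < M → Nat.RecursiveIn O (orc (c n))) (hS : CompSet S) :
    ∃ V : ℕ → ℕ, CI O V ∧ ∀ i, Forced old S M i →
      V i = (bjoin b (amal old c S x₀) i).toNat := by
  classical
  set X : ℕ → Bool := bjoin b (amal old c S x₀) with hX
  have hodd : ∀ i, i % 2 ≠ 0 → X i = amal old c S x₀ (i / 2) := by
    intro i hi
    rw [hX]
    unfold bjoin
    rw [if_neg hi]
  have hev : ∀ i, i % 2 = 0 → X i = b (i / 2) := by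
    intro i hi
    rw [hX]
    unfold bjoin
    rw [if_pos hi]
  have hE : DI O (fun i : ℕ => i % 2 = 0) :=
    DI.eq (CI.mod (CI.of_computable Computable.id) (CI.const 2)) (CI.const 0)
  have hN : DI O (fun i : ℕ => (i / 2).unpair.1 ∉ S) :=
    ((di_of_compSet hS).comp_computable comp_half1).not
  have hT : DI O (fun i : ℕ => (i / 2).unpair.1 ∈ old ∧ Nat.pair (i / 2).unpair.1 0 < M) :=
    (di_T1 old M O).comp_computable comp_half1
  have hcols := CI.comp (ci_cols old c S M O x₀ hO M le_rfl) (ci_half O)
  have htab : CI O (fun i : ℕ => if i < 2 * M + 2 then (X i).toNat else 0) := by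
    refine ci_bounded O _ (2 * M + 2) fun n hn => ?_
    rw [if_neg (not_lt.2 hn)]
  refine ⟨_, CI.ite hE (ci_orc_comp hb (ci_half O))
    (CI.ite hN (CI.const 0) (CI.ite hT hcols htab)), ?_⟩
  intro i hi
  by_cases h1 : i % 2 = 0
  · rw [if_pos h1, hev i h1]
  · rw [if_neg h1]
    by_cases h2 : (i / 2).unpair.1 ∉ S
    · rw [if_pos h2, hodd i h1]
      unfold amal
      rw [if_neg h2]
      rfl
    · rw [if_neg h2]
      have h2' : (i / 2).unpair.1 ∈ S := not_not.1 h2
      by_cases h3 : (i / 2).unpair.1 ∈ old ∧ Nat.pair (i / 2).unpair.1 0 < M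
      · rw [if_pos h3, hodd i h1]
        have h4 : (i / 2).unpair.1 < M := lt_of_le_of_lt (Nat.left_le_pair _ _) h3.2
        rw [if_pos ⟨h4, h2', h3.1⟩]
        unfold amal
        rw [if_pos h2']
      · rw [if_neg h3]
        have h5 : i / 2 < M := by
          rcases hi with h | h | h | h
          · exact absurd h h1
          · exact absurd h h2
          · exact absurd h h3
          · exact h.2
        rw [if_pos (by omega)]

/-- a string is admissible if it agrees with `b ⊕ amal x₀` at the forced places -/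
private def Adm (X : ℕ → Bool) (a : ℕ) : Prop :=
  ∀ i < (dl a).length, Forced old S M i → ext (dl a) i = X i

private theorem di_adm (O : Set (ℕ →. ℕ)) (X : ℕ → Bool) (hS : CompSet S) {V : ℕ → ℕ}
    (hV : CI O V) (hVX : ∀ i, Forced old S M i → V i = (X i).toNat) :
    DI O (fun a : ℕ => Adm old S M X a) := by
  have h1 : DI O (fun p : ℕ × ℕ => Forced old S M p.2 → (ext (dl p.1) p.2).toNat = V p.2) :=
    ((di_forced old S M O hS).comp_computable Computable.snd).imp
      (DI.eq (ci_ext O) (hV.comp_computable Computable.snd))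
  have hlen : CI O (fun a : ℕ => (dl a).length) :=
    CI.of_computable (Computable.list_length.comp dl_computable)
  refine (DI.ball h1 hlen).of_iff fun a => ?_
  unfold Adm
  constructor
  · intro h i hi hF
    rw [hVX i hF, h i hi hF]
  · intro h i hi hF
    have h2 := h i hi hF
    rw [hVX i hF] at h2
    revert h2
    cases ext (dl a) i <;> cases X i <;> simp

/-- an admissible string is an initial segment of `b ⊕ amal y` for some `y` agreeing with `x₀`
below `M` -/
private theorem adm_realised (b : ℕ → Bool) (x₀ : ℕ → ℕ) (a : ℕ)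
    (ha : Adm old S M (bjoin b (amal old c S x₀)) a) :
    ∃ y : ℕ → ℕ, (∀ i < M, y i = x₀ i) ∧
      ∀ i < (dl a).length, bjoin b (amal old c S y) i = ext (dl a) i := by
  classical
  set L := (dl a).length with hL
  let y : ℕ → ℕ := fun j => if j < M then x₀ j else
    if j.unpair.1 ∈ old then
      encode ((List.range L).map fun k => ext (dl a) (2 * Nat.pair j.unpair.1 k + 1))
    else (ext (dl a) (2 * j + 1)).toNat
  refine ⟨y, fun i hi => if_pos hi, fun i hi => ?_⟩
  by_cases h1 : i % 2 = 0
  · have h2 := ha i hi (Or.inl h1)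
    rw [h2]
    unfold bjoin
    rw [if_pos h1, if_pos h1]
  · have hyo : ∀ x : ℕ → ℕ, bjoin b (amal old c S x) i = amal old c S x (i / 2) := by
      intro x
      unfold bjoin
      rw [if_neg h1]
    rw [hyo]
    have hi2 : 2 * (i / 2) + 1 = i := by omega
    have hj : Nat.pair (i / 2).unpair.1 (i / 2).unpair.2 = i / 2 := Nat.pair_unpair _
    by_cases h2 : (i / 2).unpair.1 ∈ S
    · have hcol : ∀ x : ℕ → ℕ, amal old c S x (i / 2) =
          col old c x (i / 2).unpair.1 (i / 2).unpair.2 := by
        intro x
        unfold amal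
        rw [if_pos h2]
      rw [hcol]
      by_cases h3 : (i / 2).unpair.1 ∈ old
      · by_cases h4 : Nat.pair (i / 2).unpair.1 0 < M
        · have h5 := ha i hi (Or.inr (Or.inr (Or.inl ⟨h3, h4⟩)))
          rw [h5, hyo, hcol]
          unfold col
          rw [if_pos h3, if_pos h3]
          have h6 : y (Nat.pair (i / 2).unpair.1 0) = x₀ (Nat.pair (i / 2).unpair.1 0) :=
            if_pos h4
          rw [h6]
        · have h6 : y (Nat.pair (i / 2).unpair.1 0) = encode ((List.range L).map fun k =>
              ext (dl a) (2 * Nat.pair (i / 2).unpair.1 k + 1)) := by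
            have h7 : (Nat.pair (i / 2).unpair.1 0).unpair.1 = (i / 2).unpair.1 := by
              rw [Nat.unpair_pair]
            change (if Nat.pair (i / 2).unpair.1 0 < M then _ else
              if (Nat.pair (i / 2).unpair.1 0).unpair.1 ∈ old then _ else _) = _
            rw [if_neg h4, h7, if_pos h3]
          unfold col
          rw [if_pos h3, h6, dl_encode]
          have hk : (i / 2).unpair.2 < L := by
            have := Nat.unpair_right_le (i / 2)
            omega
          have h8 : ((List.range L).map fun k =>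
              ext (dl a) (2 * Nat.pair (i / 2).unpair.1 k + 1))[(i / 2).unpair.2]? =
              some (ext (dl a) (2 * Nat.pair (i / 2).unpair.1 (i / 2).unpair.2 + 1)) := by
            simp [hk]
          rw [h8, hj, hi2]
          rfl
      · by_cases h4 : i / 2 < M
        · have h5 := ha i hi (Or.inr (Or.inr (Or.inr ⟨h3, h4⟩)))
          rw [h5, hyo, hcol]
          unfold col
          rw [if_neg h3, if_neg h3, hj]
          have h6 : y (i / 2) = x₀ (i / 2) := if_pos h4
          rw [h6]
        · unfold col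
          rw [if_neg h3, hj]
          have h6 : y (i / 2) = (ext (dl a) (2 * (i / 2) + 1)).toNat := by
            change (if i / 2 < M then _ else if (i / 2).unpair.1 ∈ old then _ else _) = _
            rw [if_neg h4, if_neg h3]
          rw [h6, hi2]
          cases ext (dl a) i <;> rfl
    · have h5 := ha i hi (Or.inr (Or.inl h2))
      rw [h5, hyo]
      unfold amal
      rw [if_neg h2, if_neg h2]

end Forced

/-- the oracle search lemma -/
theorem search (old : Set ℕ) (c : ℕ → ℕ → Bool) {S : Set ℕ} (hS : CompSet S) (b : ℕ → Bool)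
    (x₀ : ℕ → ℕ) (M e : ℕ) (z : ℕ → Bool) (hz : Idx (bjoin b (amal old c S x₀)) e z)
    (hcon : ∀ y : ℕ → ℕ, (∀ i < M, y i = x₀ i) → ∀ k t v,
      U (bjoin b (amal old c S y)) e k t v → v = (z k).toNat) :
    IdealMem (insert b {s | ∃ n ∈ S, n ∈ old ∧ s = c n}) z := by
  set O : Set (ℕ →. ℕ) := orc '' (insert b {s | ∃ n ∈ S, n ∈ old ∧ s = c n}) with hOdef
  have hb : Nat.RecursiveIn O (orc b) := .oracle _ ⟨b, Or.inl rfl, rfl⟩
  have hO : ∀ n ∈ S, n ∈ old → n < M → Nat.RecursiveIn O (orc (c n)) := fun n h1 h2 _ =>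
    .oracle _ ⟨c n, Or.inr ⟨n, h1, h2, rfl⟩, rfl⟩
  obtain ⟨V, hV, hVX⟩ := ci_forced_val old c S M O b x₀ hb hO hS
  set X : ℕ → Bool := bjoin b (amal old c S x₀) with hX
  have hadm := di_adm old S M O X hS hV hVX
  -- the search predicate
  have hp : DI O (fun p : ℕ × ℕ => Adm old S M X p.2.unpair.1 ∧
      p.2.unpair.2.unpair.1 ≤ (dl p.2.unpair.1).length ∧
      U (ext (dl p.2.unpair.1)) e p.1 p.2.unpair.2.unpair.1 p.2.unpair.2.unpair.2) := by
    have c1 : Computable fun p : ℕ × ℕ => p.2.unpair.1 :=
      Computable.fst.comp (Computable.unpair.comp Computable.snd)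
    have c2 : Computable fun p : ℕ × ℕ => p.2.unpair.2 :=
      Computable.snd.comp (Computable.unpair.comp Computable.snd)
    have c3 : Computable fun p : ℕ × ℕ => p.2.unpair.2.unpair.1 :=
      Computable.fst.comp (Computable.unpair.comp c2)
    have c4 : Computable fun p : ℕ × ℕ => p.2.unpair.2.unpair.2 :=
      Computable.snd.comp (Computable.unpair.comp c2)
    refine (hadm.comp_computable c1).and ((DI.le (CI.of_computable c3) (CI.of_computable
      (Computable.list_length.comp (dl_computable.comp c1)))).and ?_)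
    exact (di_UE O e).comp_computable ((c1.pair Computable.fst).pair (c3.pair c4))
  have hex : ∀ k, ∃ m, Adm old S M X (Nat.unpair m).1 ∧
      (Nat.unpair m).2.unpair.1 ≤ (dl (Nat.unpair m).1).length ∧
      U (ext (dl (Nat.unpair m).1)) e k (Nat.unpair m).2.unpair.1
        (Nat.unpair m).2.unpair.2 := by
    intro k
    obtain ⟨t, ht⟩ := hz k
    refine ⟨Nat.pair (encode (pre X t)) (Nat.pair t (z k).toNat), ?_⟩
    simp only [Nat.unpair_pair, dl_encode]
    have hext : ∀ i < t, ext (pre X t) i = X i := by
      intro i hi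
      unfold ext
      rw [pre_getElem? X t i hi]
      rfl
    refine ⟨?_, ?_, ?_⟩
    · intro i hi _
      rw [dl_encode] at hi ⊢
      rw [pre_length] at hi
      exact hext i hi
    · rw [pre_length]
    · exact U_congr hext ht
  obtain ⟨w, hw, hw2⟩ := choice hp hex
  have hval : ∀ k, ((w k).unpair.2).unpair.2 = (z k).toNat := by
    intro k
    obtain ⟨h1, h2, h3⟩ := hw2 k
    obtain ⟨y, hy1, hy2⟩ := adm_realised old c S M b x₀ _ h1
    exact hcon y hy1 k _ _ (U_congr (fun i hi => hy2 i (lt_of_lt_of_le hi h2)) h3)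
  refine idealMem_of_ci ?_
  refine (CI.right (CI.right hw)).congr fun k => ?_
  exact (hval k).symm

end Pool.Agent.Lib.MP_34f7ca_lc
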