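import Pool.Agent.Lib.MP_34f7ca_lc.EXACT
import Pool.Agent.Lib.MP_34f7ca_lc.GEN
import Pool.Agent.Lib.MP_34f7ca_lc.MYCC
import Pool.Agent.Lib.MP_34f7ca_lc.CSET

/-! # MP_34f7ca_lc, module STEP: the block extension -/

set_option autoImplicit false

namespace Pool.Agent.Lib.MP_34f7ca_lc

open Pool.Agent.GammaZero Pool.Agent.Mart Cardinal

private theorem ideal_tr {S : Set (ℕ → Bool)} {b w : ℕ → Bool} (h : IdealMem S w)
    (hb : ∀ s ∈ S, TR s b) : TR w b :=
  idealMem_singleton.1 (h.trans fun s hs => idealMem_singleton.2 (hb s hs))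

private theorem mk_finset_lt {α : Type} {κ : Cardinal.{0}} (hκ : ℵ₀ < κ) (h : #α < κ) :
    #(Finset α) < κ := by
  rcases finite_or_infinite α with hf | hi
  · exact lt_of_le_of_lt (Cardinal.mk_le_aleph0) hκ
  · rwa [Cardinal.mk_finset_of_infinite]

private theorem mk_index {α β : Type} {κ : Cardinal.{0}} [Countable β]
    (h : #α < κ ∨ #α ≤ ℵ₀) : #(Finset α × β) < κ ∨ #(Finset α × β) ≤ ℵ₀ := by
  rcases le_or_gt (#α) ℵ₀ with h0 | h0
  · right
    have : Countable α := Cardinal.mk_le_aleph0_iff.1 h0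
    exact Cardinal.mk_le_aleph0
  · left
    have h1 : #α < κ := by
      rcases h with h | h
      · exact h
      · exact absurd h (not_le.2 h0)
    have : Infinite α := Cardinal.infinite_iff.2 h0.le
    rw [Cardinal.mk_prod, Cardinal.lift_id, Cardinal.lift_id, Cardinal.mk_finset_of_infinite]
    refine lt_of_le_of_lt ?_ h1
    exact Cardinal.mul_le_of_le h0.le le_rfl (le_trans Cardinal.mk_le_aleph0 h0.le)

theorem step {P : Type} [PartialOrder P] {κ : Cardinal.{0}} (hκ : CovMeagre κ)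
    (hloc : ∀ p : P, (Set.Iic p).Countable) {D D' : Set P} (hDD : D ⊆ D')
    (hD : ∀ y ∈ D, ∀ x ≤ y, x ∈ D) (hD' : ∀ y ∈ D', ∀ x ≤ y, x ∈ D')
    (hB : (D' \ D).Countable) (hcard : #D < 𝔠)
    (hN : #{y : P | y ∈ D ∧ ∃ q ∈ D' \ D, Compat y q} < κ ∨
      #{y : P | y ∈ D ∧ ∃ q ∈ D' \ D, Compat y q} ≤ ℵ₀)
    {f : P → ℕ → Bool} (hf : Inv D f) :
    ∃ g : P → ℕ → Bool, (∀ y ∈ D, g y = f y) ∧ Inv D' g := by
  classical
  rcases (D' \ D).eq_empty_or_nonempty with hBe | hBne
  · have hDD' : D' = D := Set.Subset.antisymm (Set.sdiff_eq_empty.1 hBe) hDD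
    exact ⟨f, fun _ _ => rfl, by rw [hDD']; exact hf⟩
  set B : Set P := D' \ D with hBdef
  set N : Set P := {y : P | y ∈ D ∧ ∃ q ∈ B, Compat y q} with hNdef
  -- the countable set `E` of all elements below the block
  have hEc : (⋃ q ∈ B, Set.Iic q).Countable := hB.biUnion fun q _ => hloc q
  have hEne : (⋃ q ∈ B, Set.Iic q).Nonempty := by
    obtain ⟨q, hq⟩ := hBne
    exact ⟨q, Set.mem_biUnion hq (Set.mem_Iic.2 le_rfl)⟩
  obtain ⟨e, he⟩ := hEc.exists_eq_range hEne
  have heE : ∀ y q, q ∈ B → y ≤ q → ∃ i, e i = y := by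
    intro y q hq hyq
    have : y ∈ ⋃ q ∈ B, Set.Iic q := Set.mem_biUnion hq (Set.mem_Iic.2 hyq)
    rw [he] at this
    exact this
  obtain ⟨S, gg, hS, hgg, hSmono, hmem⟩ := exists_sets (fun i k => e i ≤ e k)
    (fun i => le_rfl) (fun i j k h1 h2 => le_trans h1 h2)
  let old : Set ℕ := {n | ∃ i, gg i = n ∧ e i ∈ D}
  let c : ℕ → ℕ → Bool := fun n => if h : ∃ i, gg i = n then f (e h.choose) else fun _ => false
  have hc : ∀ i, c (gg i) = f (e i) := by
    intro i
    have hex : ∃ j, gg j = gg i := ⟨i, rfl⟩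
    have h1 : c (gg i) = f (e hex.choose) := dif_pos hex
    rw [h1, hgg hex.choose_spec]
  let iq : P → ℕ := fun q => if h : ∃ i, e i = q then h.choose else 0
  have hiq : ∀ q, (∃ i, e i = q) → e (iq q) = q := by
    intro q hq
    have h1 : iq q = hq.choose := dif_pos hq
    rw [h1]
    exact hq.choose_spec
  have hiqB : ∀ q ∈ B, e (iq q) = q := fun q hq => hiq q (heE q q hq le_rfl)
  let SF : Finset P → Set ℕ := fun F => {n | ∃ q ∈ F, n ∈ S (iq q)}
  have hSF : ∀ F : Finset P, CompSet (SF F) := by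
    intro F
    induction F using Finset.induction_on with
    | empty =>
      have h1 : SF ∅ = (∅ : Set ℕ) := by
        ext n
        simp [SF]
      rw [h1]
      exact CompSet.empty
    | insert a F _ ih =>
      have h1 : SF (insert a F) = S (iq a) ∪ SF F := by
        ext n
        simp [SF]
      rw [h1]
      exact (hS _).union ih
  choose b hb1 hb2 using fun F : Finset P => exists_join f F
  -- the meagre sets
  let up : ∀ {A : Set P}, Finset A → Finset P := fun F => F.map (Function.Embedding.subtype _)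
  have hBc : Countable B := hB.to_subtype
  let Mset : Finset N × Finset B × B → Set ((ℕ → ℕ) × (ℕ → ℕ)) := fun j =>
    {q : (ℕ → ℕ) × (ℕ → ℕ) | ∃ z : ℕ → Bool,
      TR z (bjoin (b (up j.1)) (amal old c (SF (up j.2.1)) q.1)) ∧
      TR z (bjoin (b (up j.1)) (amal old c (SF (up j.2.1)) q.2)) ∧
      ¬ IdealMem (insert (b (up j.1)) {s | ∃ n ∈ SF (up j.2.1), n ∈ old ∧ s = c n}) z}
  have hM1 : ∀ j, IsMeagre (Mset j) := fun j => exactness old c (hSF _) _
  have hnold : ∀ q ∈ B, gg (iq q) ∉ old := by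
    rintro q hq ⟨i, h1, h2⟩
    have h3 := hgg h1
    rw [h3, hiqB q hq] at h2
    exact hq.2 h2
  let Meq : B → Set ((ℕ → ℕ) × (ℕ → ℕ)) := fun q =>
    {r | col old c r.1 (gg (iq q)) = col old c r.2 (gg (iq q))}
  have hM2 : IsMeagre (⋃ q, Meq q) :=
    isMeagre_iUnion fun q => meagre_col_eq old c (hnold q q.2)
  let Qset : Finset N × Finset B × B → Set (ℕ → ℕ) := fun j =>
    {x | gg (iq j.2.2) ∉ SF (up j.2.1) ∧
      TR (col old c x (gg (iq j.2.2))) (bjoin (b (up j.1)) (amal old c (SF (up j.2.1)) x))}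
  have hQ : ∀ j, IsMeagre (Qset j) := by
    intro j
    by_cases hj : gg (iq j.2.2) ∈ SF (up j.2.1)
    · have : Qset j = ∅ := by
        ext x
        simp only [Qset, Set.mem_ofPred_eq, Set.mem_empty_iff_false, iff_false, not_and]
        exact fun h => absurd hj h
      rw [this]
      exact IsMeagre.empty
    · refine IsMeagre.mono ?_ (generic_col old c (SF (up j.2.1)) (b (up j.1))
        (hnold j.2.2 j.2.2.2) hj)
      intro x hx
      exact hx.2
  obtain ⟨φ, hφ0, hφM, hφQ⟩ := mycielski_cov hκ (mk_index hN) hM2 Mset hM1 Qset hQ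
  let nv : (ℕ → Bool) → P → ℕ → Bool := fun u q => amal old c (S (iq q)) (φ u)
  have hself : ∀ q, gg (iq q) ∈ S (iq q) := fun q => (hmem _ _).2 le_rfl
  have hnv : ∀ q ∈ B, Function.Injective fun u => nv u q := by
    intro q hq u v huv
    by_contra hne
    apply hφ0 u v hne
    refine Set.mem_iUnion.2 ⟨⟨q, hq⟩, ?_⟩
    change col old c (φ u) (gg (iq q)) = col old c (φ v) (gg (iq q))
    funext k
    have h1 := congrFun huv (Nat.pair (gg (iq q)) k)
    change amal old c (S (iq q)) (φ u) _ = amal old c (S (iq q)) (φ v) _ at h1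
    rwa [amal_pair _ _ _ _ (hself q), amal_pair _ _ _ _ (hself q)] at h1
  -- the bad parameters
  let Bad1 : D × Finset N × Finset B → Set (ℕ → Bool) := fun j =>
    {u | TR (f j.1) (bjoin (b (up j.2.1)) (amal old c (SF (up j.2.2)) (φ u))) ∧
      ¬ IdealMem (insert (b (up j.2.1)) {s | ∃ n ∈ SF (up j.2.2), n ∈ old ∧ s = c n}) (f j.1)}
  let Bad2 : B × Finset D → Set (ℕ → Bool) := fun j => {u | TR (nv u j.1) (b (up j.2))}
  have hBad1 : ∀ j, #(Bad1 j) ≤ ℵ₀ := by
    intro j
    have h1 : (Bad1 j).Subsingleton := by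
      intro u hu v hv
      by_contra hne
      obtain ⟨q0, hq0⟩ := hBne
      exact hφM (j.2.1, j.2.2, ⟨q0, hq0⟩) u v hne ⟨f j.1, hu.1, hv.1, hu.2⟩
    exact Cardinal.mk_le_aleph0_iff.2 h1.countable.to_subtype
  have hBad2 : ∀ j, #(Bad2 j) ≤ ℵ₀ := by
    intro j
    have h1 : (Bad2 j).Countable :=
      (countable_below (b (up j.2))).preimage (hnv j.1 j.1.2)
    exact Cardinal.mk_le_aleph0_iff.2 h1.to_subtype
  have hc0 : (ℵ₀ : Cardinal.{0}) < 𝔠 := Cardinal.aleph0_lt_continuum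
  have hNcard : #N < 𝔠 := lt_of_le_of_lt (Cardinal.mk_le_mk_of_subset fun y hy => hy.1) hcard
  have hι1 : #(D × Finset N × Finset B) < 𝔠 := by
    simp only [Cardinal.mk_prod, Cardinal.lift_id]
    refine Cardinal.mul_lt_of_lt hc0.le hcard (Cardinal.mul_lt_of_lt hc0.le ?_ ?_)
    · exact mk_finset_lt hc0 hNcard
    · exact lt_of_le_of_lt Cardinal.mk_le_aleph0 hc0
  have hι2 : #(B × Finset D) < 𝔠 := by
    simp only [Cardinal.mk_prod, Cardinal.lift_id]
    refine Cardinal.mul_lt_of_lt hc0.le ?_ ?_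
    · exact lt_of_le_of_lt Cardinal.mk_le_aleph0 hc0
    · exact mk_finset_lt hc0 hcard
  have hU : ∀ {ι : Type} (A : ι → Set (ℕ → Bool)), #ι < 𝔠 → (∀ j, #(A j) ≤ ℵ₀) →
      #(⋃ j, A j : Set (ℕ → Bool)) < 𝔠 := by
    intro ι A hι hA
    refine lt_of_le_of_lt (Cardinal.mk_iUnion_le_sum_mk) ?_
    refine lt_of_le_of_lt (Cardinal.sum_le_sum _ (fun _ => ℵ₀) hA) ?_
    rw [Cardinal.sum_const']
    exact Cardinal.mul_lt_of_lt hc0.le hι hc0
  obtain ⟨u, hu⟩ : ∃ u : ℕ → Bool, u ∉ (⋃ j, Bad1 j) ∪ ⋃ j, Bad2 j := by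
    by_contra hcon
    push Not at hcon
    have h1 : (⋃ j, Bad1 j) ∪ (⋃ j, Bad2 j) = Set.univ := Set.eq_univ_of_forall hcon
    have h2 : #((⋃ j, Bad1 j) ∪ (⋃ j, Bad2 j) : Set (ℕ → Bool)) < 𝔠 :=
      lt_of_le_of_lt (Cardinal.mk_union_le _ _)
        (Cardinal.add_lt_of_lt hc0.le (hU Bad1 hι1 hBad1) (hU Bad2 hι2 hBad2))
    rw [h1, Cardinal.mk_univ] at h2
    have h3 : #(ℕ → Bool) = 𝔠 := by
      simp
    rw [h3] at h2
    exact lt_irrefl _ h2
  have hu1 : ∀ j, u ∉ Bad1 j := fun j hj => hu (Or.inl (Set.mem_iUnion.2 ⟨j, hj⟩))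
  have hu2 : ∀ j, u ∉ Bad2 j := fun j hj => hu (Or.inr (Set.mem_iUnion.2 ⟨j, hj⟩))
  -- the extension
  let g : P → ℕ → Bool := fun y => if y ∈ D then f y else nv u y
  have hgD : ∀ y ∈ D, g y = f y := fun y hy => if_pos hy
  have hgB : ∀ y, y ∉ D → g y = nv u y := fun y hy => if_neg hy
  refine ⟨g, hgD, ⟨?_, ?_⟩⟩
  · -- monotonicity
    intro y hy y' hy' hyy
    by_cases hy'D : y' ∈ D
    · have hyD := hD y' hy'D y hyy
      rw [hgD y hyD, hgD y' hy'D]
      exact hf.mono y hyD y' hy'D hyy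
    · have hy'B : y' ∈ B := ⟨hy', hy'D⟩
      rw [hgB y' hy'D]
      by_cases hyD : y ∈ D
      · rw [hgD y hyD]
        obtain ⟨i, hi⟩ := heE y y' hy'B hyy
        have h1 : gg i ∈ S (iq y') := by
          rw [hmem]
          rw [hi, hiqB y' hy'B]
          exact hyy
        have h2 : gg i ∈ old := ⟨i, rfl, by rw [hi]; exact hyD⟩
        have h3 : TR (c (gg i)) (col old c (φ u) (gg i)) := tr_old_col c (φ u) h2
        rw [hc i, hi] at h3
        exact h3.trans (tr_col_amal old c _ (φ u) h1)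
      · rw [hgB y hyD]
        refine amal_mono old c (φ u) (hS _) (hSmono _ _ ?_)
        rw [hiqB y ⟨hy, hyD⟩, hiqB y' hy'B]
        exact hyy
  · -- the ideal condition
    intro p z hz hI
    obtain ⟨F, hF, hFI⟩ := hI.finite_image
    have hFD' : ∀ y ∈ F, y ∈ D' := fun y hy => (hF hy).1
    have hFp : ∀ y ∈ F, y ≤ p := fun y hy => (hF hy).2
    by_cases hall : ∀ y ∈ F, y ∈ D
    · -- only old elements
      have himg : g '' (F : Set P) = f '' (F : Set P) :=
        Set.image_congr fun y hy => hgD y (hall y hy)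
      rw [himg] at hFI
      by_cases hzD : z ∈ D
      · rw [hgD z hzD] at hFI
        exact hf.ideal p z hzD (hFI.mono (Set.image_mono fun y hy => ⟨hall y hy, hFp y hy⟩))
      · exfalso
        rw [hgB z hzD] at hFI
        have hup : up (F.subtype (· ∈ D)) = F := by
          change (F.subtype (· ∈ D)).map (Function.Embedding.subtype _) = F
          exact Finset.subtype_map_of_mem hall
        refine hu2 (⟨z, hz, hzD⟩, F.subtype (· ∈ D)) ?_
        change TR (nv u z) (b (up (F.subtype (· ∈ D))))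
        rw [hup]
        refine ideal_tr hFI ?_
        rintro s ⟨y, hy, rfl⟩
        exact hb1 F y hy
    · push Not at hall
      obtain ⟨q0, hq0F, hq0D⟩ := hall
      -- the two parts of `F`
      let F0 : Finset N := F.subtype (· ∈ N)
      let F1 : Finset B := F.subtype (· ∈ B)
      have hF0 : ∀ y, y ∈ up F0 ↔ y ∈ F ∧ y ∈ N := by
        intro y
        change y ∈ (F.subtype (· ∈ N)).map (Function.Embedding.subtype _) ↔ _
        rw [Finset.subtype_map, Finset.mem_filter]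
      have hF1 : ∀ y, y ∈ up F1 ↔ y ∈ F ∧ y ∈ B := by
        intro y
        change y ∈ (F.subtype (· ∈ B)).map (Function.Embedding.subtype _) ↔ _
        rw [Finset.subtype_map, Finset.mem_filter]
      have hJ : ∀ y ∈ F, TR (g y)
          (bjoin (b (up F0)) (amal old c (SF (up F1)) (φ u))) := by
        intro y hy
        by_cases hyD : y ∈ D
        · rw [hgD y hyD]
          have hyN : y ∈ N := ⟨hyD, q0, ⟨hFD' q0 hq0F, hq0D⟩, p, hFp y hy, hFp q0 hq0F⟩
          exact (hb1 _ y ((hF0 y).2 ⟨hy, hyN⟩)).trans (tr_bjoin_left _ _)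
        · rw [hgB y hyD]
          have hyB : y ∈ B := ⟨hFD' y hy, hyD⟩
          refine (amal_mono old c (φ u) (hS _) ?_).trans (tr_bjoin_right _ _)
          intro n hn
          exact ⟨y, (hF1 y).2 ⟨hy, hyB⟩, hn⟩
      have hzJ : TR (g z) (bjoin (b (up F0)) (amal old c (SF (up F1)) (φ u))) := by
        refine ideal_tr hFI ?_
        rintro s ⟨y, hy, rfl⟩
        exact hJ y hy
      by_cases hzD : z ∈ D
      · rw [hgD z hzD] at hzJ
        have h1 : IdealMem (insert (b (up F0)) {s | ∃ n ∈ SF (up F1), n ∈ old ∧ s = c n})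
            (f z) := by
          by_contra hcon
          exact hu1 (⟨z, hzD⟩, F0, F1) ⟨hzJ, hcon⟩
        refine hf.ideal p z hzD (h1.trans ?_)
        intro s hs
        rcases hs with rfl | ⟨n, ⟨q, hq, hn⟩, ⟨i, rfl, hiD⟩, rfl⟩
        · refine (hb2 _).mono (Set.image_mono fun y hy => ?_)
          have hy' := (hF0 y).1 hy
          exact ⟨hy'.2.1, hFp y hy'.1⟩
        · have hq' := (hF1 q).1 hq
          rw [hmem] at hn
          change e i ≤ e (iq q) at hn
          rw [hiqB q hq'.2] at hn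
          refine IdealMem.of_mem ⟨e i, ⟨hiD, hn.trans (hFp q hq'.1)⟩, ?_⟩
          rw [hc i]
      · by_contra hzp
        have hzB : z ∈ B := ⟨hz, hzD⟩
        rw [hgB z hzD] at hzJ
        have h1 : gg (iq z) ∉ SF (up F1) := by
          rintro ⟨q, hq, hn⟩
          have hq' := (hF1 q).1 hq
          rw [hmem] at hn
          change e (iq z) ≤ e (iq q) at hn
          rw [hiqB q hq'.2, hiqB z hzB] at hn
          exact hzp (hn.trans (hFp q hq'.1))
        refine hφQ (F0, F1, ⟨z, hzB⟩) u ⟨h1, ?_⟩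
        exact (tr_col_amal old c _ (φ u) (hself z)).trans hzJ

end Pool.Agent.Lib.MP_34f7ca_lc
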