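import Pool.Agent.Lib.MP_34f7ca_lc.Defs

/-! # MP_34f7ca_lc, module TOP: topological lemmas -/

set_option autoImplicit false

namespace Pool.Agent.Lib.MP_34f7ca_lc

/-- basic neighbourhoods in Baire space -/
theorem exists_cyl {V : Set (ℕ → ℕ)} (hV : IsOpen V) {x : ℕ → ℕ} (hx : x ∈ V) :
    ∃ M : ℕ, ∀ y : ℕ → ℕ, (∀ i < M, y i = x i) → y ∈ V := by
  rw [isOpen_pi_iff] at hV
  obtain ⟨I, u, hu, hsub⟩ := hV x hx
  refine ⟨I.sup id + 1, fun y hy => hsub ?_⟩
  intro i hi
  have h1 : i < I.sup id + 1 := Nat.lt_succ_of_le (Finset.le_sup (f := id) hi)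
  rw [hy i h1]
  exact (hu i hi).2

/-- a set contained in a closed set and disjoint from its interior is meagre -/
theorem isMeagre_of_closed {Y : Type} [TopologicalSpace Y] {T C : Set Y} (hC : IsClosed C)
    (hT : T ⊆ C) (hd : ∀ q ∈ T, q ∉ interior C) : IsMeagre T := by
  have h1 : T ⊆ C \ interior C := fun q hq => ⟨hT hq, hd q hq⟩
  refine IsMeagre.mono h1 ?_
  apply IsNowhereDense.isMeagre
  have h2 : IsClosed (C \ interior C) := hC.sdiff isOpen_interior
  rw [h2.isNowhereDense_iff]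
  rw [Set.eq_empty_iff_forall_notMem]
  intro q hq
  have h3 : interior (C \ interior C) ⊆ interior C :=
    interior_mono fun _ h => h.1
  exact (interior_subset hq).2 (h3 hq)

end Pool.Agent.Lib.MP_34f7ca_lc
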